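import Pool.Agent.Work.MP_7daf81_ag.X16.Num1

/-! The cubic surface of the double projection has a toric complement. -/

namespace Pool.Agent.Work.MP_7daf81_ag.X16

open Matrix Pool.Agent.Work.MP_7daf81_ag.V22

/-- The matrix of linear forms defining the cubic surface. -/
def Nm {F : Type} [CommRing F] (α β : Fin 3 → F) (P Q : Fin 3 → Fin 3 → F) (z : Fin 4 → F) :
    Fin 3 → Fin 3 → F :=
  ![fun k => z 1 * α k + z 2 * P 0 k + z 3 * Q 0 k,
    fun k => -z 0 * α k + z 1 * β k + z 2 * P 1 k + z 3 * Q 1 k,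
    fun k => -z 0 * β k + z 2 * P 2 k + z 3 * Q 2 k]

/-- Smoothness along the line. -/
def Star (α β : Fin 3 → ℂ) (P Q : Fin 3 → Fin 3 → ℂ) : Prop :=
  ∀ (μ : Fin 3 → ℂ) (v1 v2 : ℂ), ¬(v1 = 0 ∧ v2 = 0) → ∑ k, μ k * α k = 0 → ∑ k, μ k * β k = 0 →
    (∀ i, ∑ k, μ k * (v1 * P i k + v2 * Q i k) = 0) → μ = 0

/-- The cubic surface has a toric complement. -/
def TorS (α β : Fin 3 → ℂ) (P Q : Fin 3 → Fin 3 → ℂ) : Prop :=
  ∃ Λ : Matrix (Fin 4) (Fin 4) ℂ, Λ.det ≠ 0 ∧ Toric fun a b t =>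
    (Matrix.of fun i j => a * algebraMap ℂ K (Nm α β P Q (Λ 0) i j) +
      b * algebraMap ℂ K (Nm α β P Q (Λ 1) i j) + t * algebraMap ℂ K (Nm α β P Q (Λ 2) i j) +
      algebraMap ℂ K (Nm α β P Q (Λ 3) i j)).det

variable {α β : Fin 3 → ℂ} {P Q : Fin 3 → Fin 3 → ℂ}

theorem torS_two (h : Star α β P Q)
    (hn : (![α 1 * β 2 - α 2 * β 1, α 2 * β 0 - α 0 * β 2, α 0 * β 1 - α 1 * β 0] : Fin 3 → ℂ) ≠ 0) :
    TorS α β P Q := by
  obtain ⟨s, r, hsr⟩ : ∃ s r : ℂ, (s * T3 α β (P 1) + r * T3 α β (Q 1)) ^ 2 -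
      4 * (s * T3 α β (P 0) + r * T3 α β (Q 0)) * (s * T3 α β (P 2) + r * T3 α β (Q 2)) ≠ 0 := by
    by_contra hh
    push Not at hh
    obtain ⟨s, r, hsr, e0, e1, e2⟩ := algC _ _ _ _ _ _ hh
    refine hn (h _ s r hsr ?_ ?_ fun i => ?_)
    · simp [Fin.sum_univ_three]; ring
    · simp [Fin.sum_univ_three]; ring
    · simp only [T3] at e0 e1 e2
      simp only [Fin.sum_univ_three, cons_val_zero, cons_val_one, cons_val]
      fin_cases i
      · change _ * (s * P 0 0 + r * Q 0 0) + _ * (s * P 0 1 + r * Q 0 1) +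
          _ * (s * P 0 2 + r * Q 0 2) = 0
        linear_combination e0
      · change _ * (s * P 1 0 + r * Q 1 0) + _ * (s * P 1 1 + r * Q 1 1) +
          _ * (s * P 1 2 + r * Q 1 2) = 0
        linear_combination e1
      · change _ * (s * P 2 0 + r * Q 2 0) + _ * (s * P 2 1 + r * Q 2 1) +
          _ * (s * P 2 2 + r * Q 2 2) = 0
        linear_combination e2
  obtain ⟨w2, w3, hw⟩ := exists_compl s r (by
    rintro ⟨rfl, rfl⟩
    apply hsr
    ring)
  refine ⟨!![1, 0, 0, 0; 0, 1, 0, 0; 0, 0, s, r; 0, 0, w2, w3], ?_, ?_⟩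
  · convert hw using 1
    simp [Matrix.det_succ_row_zero, Fin.sum_univ_succ, Fin.succAbove]
    ring
  · apply toric_of_det
    · simp [T3, Nm]
    · simp [T3, m2, Nm]; ring
    · simp [T3, m2, Nm]; ring
    · simp [T3, Nm]
    · convert hsr using 1
      simp only [T3, m2, m3, Nm, Matrix.of_apply, Matrix.cons_val_zero, Matrix.cons_val_one,
        Matrix.cons_val]
      ring

theorem torS_one (h : Star α β P Q) (n : Fin 3 → ℂ) (hn : n ≠ 0) (x0 x1 : ℂ)
    (hx : ¬(x0 = 0 ∧ x1 = 0)) (hα : ∀ k, α k = x0 * n k) (hβ : ∀ k, β k = x1 * n k) :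
    TorS α β P Q := by
  obtain ⟨μ, μ', n0, n1, n2⟩ := exists_perp n
  set P1 : Fin 3 → ℂ := fun i => ∑ k, μ k * P i k with hP1
  set P2 : Fin 3 → ℂ := fun i => ∑ k, μ k * Q i k with hP2
  set Q1 : Fin 3 → ℂ := fun i => ∑ k, μ' k * P i k with hQ1
  set Q2 : Fin 3 → ℂ := fun i => ∑ k, μ' k * Q i k with hQ2
  have hN : NoDec P1 P2 Q1 Q2 := by
    intro v1 v2 m1 m2 hv h0
    have := h (m1 • μ + m2 • μ') v1 v2 hv
      (by simp only [Fin.sum_univ_three, hα, ← n0, ← n1, ← n2, Pi.add_apply, Pi.smul_apply,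
            smul_eq_mul]; ring)
      (by simp only [Fin.sum_univ_three, hβ, ← n0, ← n1, ← n2, Pi.add_apply, Pi.smul_apply,
            smul_eq_mul]; ring)
      (fun i => by
        have := congrFun h0 i
        simp only [Fin.sum_univ_three, Pi.add_apply, Pi.smul_apply, smul_eq_mul, hP1, hP2, hQ1, hQ2,
          Pi.zero_apply] at this ⊢
        linear_combination this)
    have e0 := congrFun this 0
    have e1 := congrFun this 1
    have e2 := congrFun this 2
    simp only [Pi.add_apply, Pi.smul_apply, smul_eq_mul, Pi.zero_apply] at e0 e1 e2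
    constructor
    · by_contra hm
      apply hn
      funext i
      apply mul_left_cancel₀ hm
      fin_cases i
      · change m1 * n 0 = m1 * 0
        linear_combination -m1 * n0 + μ' 2 * e1 - μ' 1 * e2
      · change m1 * n 1 = m1 * 0
        linear_combination -m1 * n1 + μ' 0 * e2 - μ' 2 * e0
      · change m1 * n 2 = m1 * 0
        linear_combination -m1 * n2 + μ' 1 * e0 - μ' 0 * e1
    · by_contra hm
      apply hn
      funext i
      apply mul_left_cancel₀ hm
      fin_cases i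
      · change m2 * n 0 = m2 * 0
        linear_combination -m2 * n0 - μ 2 * e1 + μ 1 * e2
      · change m2 * n 1 = m2 * 0
        linear_combination -m2 * n1 - μ 0 * e2 + μ 2 * e0
      · change m2 * n 2 = m2 * 0
        linear_combination -m2 * n2 - μ 1 * e0 + μ 0 * e1
  set c1 : Fin 3 → ℂ := ![0, -x0, -x1] with hc1
  set c2 : Fin 3 → ℂ := ![x0, x1, 0] with hc2
  obtain ⟨s, r, hsr⟩ : ∃ s r : ℂ,
      (s * (T3 c1 P1 Q2 + T3 c1 P2 Q1) + r * (T3 c2 P1 Q2 + T3 c2 P2 Q1)) ^ 2 -
      4 * (s * T3 c1 P1 Q1 + r * T3 c2 P1 Q1) * (s * T3 c1 P2 Q2 + r * T3 c2 P2 Q2) ≠ 0 := by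
    by_contra hh
    push Not at hh
    obtain ⟨s, r, hsr, e0, e1, e2⟩ := algC _ _ _ _ _ _ hh
    refine hN.false (c := s • c1 + r • c2) (fun h0 => ?_) ?_ ?_ ?_
    · have a0 := congrFun h0 0
      have a1 := congrFun h0 1
      have a2 := congrFun h0 2
      simp only [hc1, hc2, Pi.add_apply, Pi.smul_apply, smul_eq_mul, cons_val_zero, cons_val_one,
        cons_val, Pi.zero_apply] at a0 a1 a2
      obtain ⟨l, rfl, rfl⟩ := par hx (s := r) (t := s) (by linear_combination -a1)
      have b0 : l * x0 * x0 = 0 := by linear_combination a0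
      have b1 : l * x1 * x1 = 0 := by linear_combination -a2
      by_cases hl : l = 0
      · exact hsr ⟨by rw [hl, zero_mul], by rw [hl, zero_mul]⟩
      · exact hx ⟨by simpa [hl] using b0, by simpa [hl] using b1⟩
    all_goals simp only [T3, Pi.add_apply, Pi.smul_apply, smul_eq_mul] at e0 e1 e2 ⊢
    · linear_combination e0
    · linear_combination e1
    · linear_combination e2
  obtain ⟨s', r', hw⟩ := exists_compl s r (by
    rintro ⟨rfl, rfl⟩
    apply hsr
    ring)
  obtain ⟨a1, b1, a2, b2, hd, q1, q2, q3⟩ := roots_quad _ _ _ hsr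
  refine ⟨!![s, r, 0, 0; 0, 0, a1, b1; 0, 0, a2, b2; s', r', 0, 0], ?_, ?_⟩
  · convert mul_ne_zero hw hd using 1
    simp [Matrix.det_succ_row_zero, Fin.sum_univ_succ, Fin.succAbove]
    ring
  · simp only [T3, hP1, hP2, hQ1, hQ2, hc1, hc2, Fin.sum_univ_three, cons_val_zero, cons_val_one,
      cons_val] at q1 q2 q3
    apply toric_of_det'
    all_goals simp only [T3, m2, m3, Nm, of_apply, cons_val_zero, cons_val_one, cons_val, hα, hβ]
    iterate 10 ring
    all_goals simp only [← n0, ← n1, ← n2]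
    · linear_combination q1
    · linear_combination q2
    · intro h0
      apply q3
      linear_combination h0

theorem torS_of_star (h : Star α β P Q) : TorS α β P Q := by
  by_cases hn : (![α 1 * β 2 - α 2 * β 1, α 2 * β 0 - α 0 * β 2, α 0 * β 1 - α 1 * β 0] :
      Fin 3 → ℂ) = 0
  swap
  · exact torS_two h hn
  have e0 : α 1 * β 2 - α 2 * β 1 = 0 := congrFun hn 0
  have e1 : α 2 * β 0 - α 0 * β 2 = 0 := congrFun hn 1
  have e2 : α 0 * β 1 - α 1 * β 0 = 0 := congrFun hn 2
  by_cases ha : α = 0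
  · by_cases hb : β = 0
    · exfalso
      obtain ⟨v1, v2, hv, hd⟩ := exists_cubic_root (Matrix.of P) (Matrix.of Q)
      obtain ⟨μ, h0, hμ⟩ := exists_mulVec_eq_zero_iff.mpr hd
      refine h0 (h μ v1 v2 hv (by simp [ha]) (by simp [hb]) fun i => ?_)
      have := congrFun hμ i
      simp only [mulVec, dotProduct, Fin.sum_univ_three, Matrix.add_apply, Matrix.smul_apply, of_apply,
        smul_eq_mul, Pi.zero_apply] at this ⊢
      linear_combination this
    · exact torS_one h β hb 0 1 (by simp) (by simp [ha]) (by simp)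
  · obtain ⟨i, hi⟩ := Function.ne_iff.mp ha
    refine torS_one h α ha 1 (β i / α i) (by simp) (by simp) fun k => ?_
    have hi' : α i ≠ 0 := hi
    field_simp
    fin_cases i <;> fin_cases k <;> simp only [Fin.reduceFinMk, Fin.zero_eta, Fin.mk_one] <;>
      first | ring1 | linear_combination e0 | linear_combination -e0 | linear_combination e1 |
        linear_combination -e1 | linear_combination e2 | linear_combination -e2

end Pool.Agent.Work.MP_7daf81_ag.X16
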