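import Pool.Agent.Work.MP_7daf81_ag.X16.Line
import Pool.Agent.Work.MP_7daf81_ag.X16.Num2

/-! The point of the chart over a point of projective three-space, and its Jacobian. -/

namespace Pool.Agent.Work.MP_7daf81_ag.X16

open Matrix

theorem det_six {F : Type} [CommRing F] : ∃ ε : ℤ, ε ≠ 0 ∧ ∀ (p q v : F) (n0 r1 r2 r3 n2 r5 : Fin 3 → F),
    (fromBlocks !![0, 0, 0; 1, 0, 0; p, 0, v] (of ![n0, r1, r2]) !![-1, 0, 0; 0, 0, 0; q, -v, 0]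
      (of ![r3, n2, r5])).det = ε * v ^ 2 * (of ![n0, r1 + r3, n2]).det := by
  let Q : Matrix (Fin 3 ⊕ Fin 3) (Fin 3 ⊕ Fin 3) ℤ := fromBlocks !![0, 0, 0; 1, 0, 0; 0, 0, 1]
    !![1, 0, 0; 0, 0, 0; 0, 0, 0] !![-1, 0, 0; 0, 0, 0; 0, 1, 0] !![0, 1, 0; 0, 0, 1; 0, 0, 0]
  let P : Matrix (Fin 3 ⊕ Fin 3) (Fin 3 ⊕ Fin 3) ℤ := fromBlocks !![0, 1, 0; 0, 0, 0; 0, 0, 1]
    !![0, 0, 0; 0, 0, 1; 0, 0, 0] !![1, 0, 0; 0, 1, 0; 0, 0, 0] !![0, 0, 0; 1, 0, 0; 0, 1, 0]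
  have hQ : Q * P = 1 := by decide
  refine ⟨-Q.det, fun h => ?_, fun p q v n0 r1 r2 r3 n2 r5 => ?_⟩
  · have := congrArg Matrix.det hQ
    rw [det_mul, neg_eq_zero.mp h, det_one] at this
    simp at this
  · have e : fromBlocks !![0, 0, 0; 1, 0, 0; p, 0, v] (of ![n0, r1, r2])
        !![-1, 0, 0; 0, 0, 0; q, -v, 0] (of ![r3, n2, r5]) = Q.map (Int.castRingHom F) *
        fromBlocks !![1, 0, 0; q, -v, 0; p, 0, v] (of ![r1, r5, r2]) 0 (of ![n0, r1 + r3, n2]) := by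
      rw [fromBlocks_map, fromBlocks_multiply]
      congr 1 <;> ext i j <;> fin_cases i <;> fin_cases j <;>
        simp [Matrix.mul_apply, Fin.sum_univ_three]
    rw [e, det_mul, det_fromBlocks_zero₂₁, ← RingHom.mapMatrix_apply, ← RingHom.map_det]
    simp [det_fin_three]
    ring

section
variable {F W : Type} [Field F] [AddCommGroup W] [Module F W]

/-- The first vector of invariants of a line. -/
def al (H : Fin 3 → W →ₗ[F] W →ₗ[F] W →ₗ[F] F) (l1 l2 s1 s2 g2 : W) : Fin 3 → F :=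
  fun k => H k l1 s1 s2 - H k l1 l2 g2

/-- The second vector of invariants of a line. -/
def be (H : Fin 3 → W →ₗ[F] W →ₗ[F] W →ₗ[F] F) (l1 l2 s1 s2 g1 : W) : Fin 3 → F :=
  fun k => H k l2 s1 s2 + H k l1 l2 g1

/-- The binary quadratic forms attached to a vector. -/
def tau (H : Fin 3 → W →ₗ[F] W →ₗ[F] W →ₗ[F] F) (l1 l2 g1 g2 s : W) : Fin 3 → Fin 3 → F :=
  ![fun k => H k s l1 g2, fun k => H k s l2 g2 - H k s l1 g1, fun k => -H k s l2 g1]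

/-- The Jacobian matrix in block form. -/
def JM (σ : W →ₗ[F] W →ₗ[F] F) (H : Fin 3 → W →ₗ[F] W →ₗ[F] W →ₗ[F] F) (u0 u1 u2 : W)
    (c : Fin 3 → W) : Matrix (Fin 3 ⊕ Fin 3) (Fin 3 ⊕ Fin 3) F :=
  fromBlocks (of fun l => ![σ (c l) u2, 0, σ u0 (c l)]) (of fun l k => H k u0 (c l) u2)
    (of fun l => ![σ u1 (c l), σ (c l) u0, 0]) (of fun l k => H k u0 u1 (c l))

variable [CharZero F] {σ : W →ₗ[F] W →ₗ[F] F} {H : Fin 3 → W →ₗ[F] W →ₗ[F] W →ₗ[F] F}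
  (hσ : ∀ x y, σ x y = -σ y x) (h1 : ∀ k a b c, H k a b c = -H k b a c)
  (h2 : ∀ k a b c, H k a b c = -H k a c b)
include hσ h1 h2

theorem JM_cov {u0 u1 u2 : W} (a1 : σ u0 u1 = 0) (a2 : σ u0 u2 = 0) (e : Fin 3 → W)
    (Γ : Matrix (Fin 3) (Fin 3) F) (γ : Fin 3 → F) :
    (JM σ H u0 u1 u2 fun l => ∑ m, Γ l m • e m + γ l • u0).det =
      Γ.det ^ 2 * (JM σ H u0 u1 u2 e).det := by
  have z0 : σ u0 u0 = 0 := by linear_combination hσ u0 u0 / 2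
  have z1 : ∀ k b, H k u0 u0 b = 0 := fun k b => by linear_combination h1 k u0 u0 b / 2
  have z3 : ∀ k b, H k u0 b u0 = 0 := fun k b => by rw [h2, z1, neg_zero]
  have a3 : σ u1 u0 = 0 := by rw [hσ, a1, neg_zero]
  have : (JM σ H u0 u1 u2 fun l => ∑ m, Γ l m • e m + γ l • u0) =
      fromBlocks Γ 0 0 Γ * JM σ H u0 u1 u2 e := by
    rw [JM, JM, fromBlocks_multiply]
    congr 1 <;> ext i j <;> fin_cases j <;>
      simp [Matrix.mul_apply, Fin.sum_univ_three, z0, z1, z3, a2, a3]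
  rw [this, det_mul, det_fromBlocks_zero₂₁, sq]

variable {l1 l2 s1 s2 g1 g2 : W} (hb : SB σ l1 l2 s1 s2 g1 g2)
  (hL : ∀ k, H k l1 l2 s1 = 0 ∧ H k l1 l2 s2 = 0)
include hb hL

theorem exists_pt (x : Fin 4 → F) (hx : x 2 ≠ 0)
    (hd : (of (Nm (al H l1 l2 s1 s2 g2) (be H l1 l2 s1 s2 g1) (tau H l1 l2 g1 g2 s1)
      (tau H l1 l2 g1 g2 s2) x)).det ≠ 0) {ε : ℤ}
    (hε : ∀ (p q v : F) (n0 r1 r2 r3 n2 r5 : Fin 3 → F),
    (fromBlocks !![0, 0, 0; 1, 0, 0; p, 0, v] (of ![n0, r1, r2]) !![-1, 0, 0; 0, 0, 0; q, -v, 0]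
      (of ![r3, n2, r5])).det = ε * v ^ 2 * (of ![n0, r1 + r3, n2]).det) :
    ∃ φ0 φ1 φ2 : F, ∀ (z1 z2 : F) (u0 u1 u2 : W), u0 = x 0 • l1 + x 1 • l2 + x 2 • s1 + x 3 • s2 →
      u1 = g1 + (φ0 • l1 + φ1 • l2 - (x 0 / x 2) • s2) - z1 • u0 →
      u2 = g2 + (φ1 • l1 + φ2 • l2 - (x 1 / x 2) • s2) - z2 • u0 →
      σ u0 u1 = 0 ∧ σ u0 u2 = 0 ∧ σ u1 u2 = 0 ∧ (∀ k, H k u0 u1 u2 = 0) ∧
      (JM σ H u0 u1 u2 ![l1, l2, s2]).det = ε * x 2 ^ 2 *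
        (of (Nm (al H l1 l2 s1 s2 g2) (be H l1 l2 s1 s2 g1) (tau H l1 l2 g1 g2 s1)
          (tau H l1 l2 g1 g2 s2) x)).det := by
  set N := of (Nm (al H l1 l2 s1 s2 g2) (be H l1 l2 s1 s2 g1) (tau H l1 l2 g1 g2 s1)
    (tau H l1 l2 g1 g2 s2) x) with hN
  obtain ⟨u0, hu0⟩ : ∃ u0, u0 = x 0 • l1 + x 1 • l2 + x 2 • s1 + x 3 • s2 := ⟨_, rfl⟩
  obtain ⟨Φ, hΦ⟩ : ∃ Φ : Fin 3 → F, Φ ᵥ* N =
      -fun k => H k u0 (g1 - (x 0 / x 2) • s2) (g2 - (x 1 / x 2) • s2) :=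
    ⟨_ ᵥ* N⁻¹, by rw [vecMul_vecMul, nonsing_inv_mul _ (Ne.isUnit hd), vecMul_one]⟩
  refine ⟨Φ 0, Φ 1, Φ 2, ?_⟩
  rintro z1 z2 u u1 u2 hu hu1 hu2
  rw [← hu0] at hu
  subst hu
  have t := hb.tab hσ
  have y1 : ∀ k a b, H k a a b = 0 := fun k a b => by linear_combination h1 k a a b / 2
  have y2 : ∀ k a b, H k a b b = 0 := fun k a b => by linear_combination h2 k a b b / 2
  have y3 : ∀ k a b, H k a b a = 0 := fun k a b => by rw [h2, y1, neg_zero]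
  have y4 : ∀ k a b c, H k a b c = H k b c a := fun k a b c => by rw [h1, h2, neg_neg]
  have c1 : σ u l1 = 0 := by rw [hu0]; simp [t]
  have c2 : σ u l2 = 0 := by rw [hu0]; simp [t]
  have c3 : σ u s2 = x 2 := by rw [hu0]; simp [t]
  have c4 : σ u g1 = x 0 := by rw [hu0]; simp [t]
  have c5 : σ u g2 = x 1 := by rw [hu0]; simp [t]
  have c1' : σ l1 u = 0 := by rw [hσ, c1, neg_zero]
  have c2' : σ l2 u = 0 := by rw [hσ, c2, neg_zero]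
  have c3' : σ s2 u = -x 2 := by rw [hσ, c3]
  have c4' : σ g1 u = -x 0 := by rw [hσ, c4]
  have A1 : ∀ k, H k u l1 l2 = 0 := fun k => by
    rw [hu0]; simp [y1, y3, y4 k s1, y4 k s2, hL k]
  have A2 : ∀ k, H k u l1 s2 = -x 2 * H k l1 s1 s2 := fun k => by
    rw [hu0]; simp [y1, y3, h1 k l2 l1, h1 k s1 l1, hL k]
  have A3 : ∀ k, H k u l2 s2 = -x 2 * H k l2 s1 s2 := fun k => by
    rw [hu0]; simp [y1, y3, h1 k s1 l2, hL k]
  have A4 : ∀ k g, H k u l1 g = -x 1 * H k l1 l2 g + x 2 * H k s1 l1 g + x 3 * H k s2 l1 g :=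
    fun k g => by rw [hu0]; simp [y1, h1 k l2 l1]
  have A5 : ∀ k g, H k u l2 g = x 0 * H k l1 l2 g + x 2 * H k s1 l2 g + x 3 * H k s2 l2 g :=
    fun k g => by rw [hu0]; simp [y1]
  have n0 : ∀ k, H k u l1 (g2 - (x 1 / x 2) • s2) = N 0 k := fun k => by
    rw [map_sub, map_smul, A2, A4]
    simp only [hN, Nm, al, tau, of_apply, cons_val_zero, smul_eq_mul]
    field_simp
    ring
  have n1 : ∀ k, H k u l2 (g2 - (x 1 / x 2) • s2) - H k u l1 (g1 - (x 0 / x 2) • s2) = N 1 k :=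
    fun k => by
    rw [map_sub, map_smul, map_sub, map_smul, A2, A3, A4, A5]
    simp only [hN, Nm, al, be, tau, of_apply, cons_val_zero, cons_val_one, smul_eq_mul]
    field_simp
    ring
  have n2 : ∀ k, -H k u l2 (g1 - (x 0 / x 2) • s2) = N 2 k := fun k => by
    rw [map_sub, map_smul, A3, A5]
    simp only [hN, Nm, be, tau, of_apply, cons_val_zero, cons_val_one, cons_val, smul_eq_mul]
    field_simp
    ring
  have d1 : σ l1 (g1 - (x 0 / x 2) • s2) = 1 := by simp [t]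
  have d2 : σ l1 (g2 - (x 1 / x 2) • s2) = 0 := by simp [t]
  have d3 : σ l2 (g1 - (x 0 / x 2) • s2) = 0 := by simp [t]
  have d4 : σ l2 (g2 - (x 1 / x 2) • s2) = 1 := by simp [t]
  have d5 : σ u (g1 - (x 0 / x 2) • s2) = 0 := by simp [c3, c4, hx]
  have d6 : σ u (g2 - (x 1 / x 2) • s2) = 0 := by simp [c3, c5, hx]
  have d7 : σ (g1 - (x 0 / x 2) • s2) (g2 - (x 1 / x 2) • s2) = 0 := by simp [t]
  have e1 : u1 = (g1 - (x 0 / x 2) • s2) + Φ 0 • l1 + Φ 1 • l2 - z1 • u := by rw [hu1]; module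
  have e2 : u2 = (g2 - (x 1 / x 2) • s2) + Φ 1 • l1 + Φ 2 • l2 - z2 • u := by rw [hu2]; module
  clear hu1 hu2
  generalize g1 - (x 0 / x 2) • s2 = w1 at *
  generalize g2 - (x 1 / x 2) • s2 = w2 at *
  have tl := t.1
  have t12 := hb.ll
  have t21 : σ l2 l1 = 0 := t.2.2.1
  refine ⟨by simp [e1, d5, c1, c2, tl], by simp [e2, d6, c1, c2, tl], ?_, fun k => ?_, ?_⟩
  · simp [e1, e2, d2, d4, d6, d7, hσ w1 l1, hσ w1 l2, hσ w1 u, d1, d3, d5, c1, c2, c1', c2', tl, t12,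
      t21]
  · have := congrFun hΦ k
    simp only [vecMul, dotProduct, Fin.sum_univ_three, Pi.neg_apply, ← n0, ← n1, ← n2] at this
    simp only [e1, e2, map_add, map_sub, map_smul, LinearMap.add_apply, LinearMap.sub_apply,
      LinearMap.smul_apply, smul_eq_mul, y1, y2, y3, A1, h2 k u l2 l1, h2 k u w1 l1, h2 k u w1 l2]
    linear_combination this
  · have hNe : N = of ![fun k => H k u l1 u2, (fun k => H k u l2 u2) + fun k => H k u u1 l1,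
        fun k => H k u u1 l2] := by
      ext i k
      fin_cases i
      · simp [e2, ← n0, y2, y3, A1]
      · simp [e1, e2, ← n1, y1, y2, y3, A1, h2 k u l2 l1, h2 k u w1 l1, sub_eq_add_neg]
      · simp [e1, ← n2, y1, y2, A1, h2 k u w1 l2]
    rw [hNe, ← hε (σ s2 u2) (σ u1 s2) (x 2) _ _ (fun k => H k u s2 u2) _ _ (fun k => H k u u1 s2), JM]
    have f1 : σ l1 u2 = 0 := by simp [e2, d2, c1', tl, t12]
    have f2 : σ l2 u2 = 1 := by simp [e2, d4, c2', tl, t21]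
    have f3 : σ u1 l1 = -1 := by simp [e1, hσ w1 l1, d1, c1, tl, t21]
    have f4 : σ u1 l2 = 0 := by simp [e1, hσ w1 l2, d3, c2, tl, t12]
    congr 2 <;> ext i j <;> fin_cases i <;> fin_cases j <;>
      simp [f1, f2, f3, f4, c1, c2, c3, c1', c2', c3']

end

end Pool.Agent.Work.MP_7daf81_ag.X16
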