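import Mathlib

/-! Definitions for the statement on Fano threefolds of genus 9 given as linear sections of the
Lagrangian Grassmannian. -/

namespace Pool.Agent.Work.MP_7daf81_ag.X16

/-- The field of rational functions in three variables over the complex numbers. -/
abbrev K : Type := FractionRing (MvPolynomial (Fin 3) ℂ)

/-- The three coordinate functions in `K`. -/
noncomputable def tt (i : Fin 3) : K :=
  algebraMap (MvPolynomial (Fin 3) ℂ) K (MvPolynomial.X i)

/-- The value of the bilinear form with complex matrix `A` on two vectors over a field `F`. -/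
noncomputable def bil {F : Type} [Field F] [Algebra ℂ F] (A : Matrix (Fin 6) (Fin 6) ℂ)
    (x y : Fin 6 → F) : F :=
  ∑ i, ∑ j, algebraMap ℂ F (A i j) * x i * y j

/-- The value of the trilinear form with complex coefficients `T` on three vectors over `F`. -/
noncomputable def tri {F : Type} [Field F] [Algebra ℂ F] (T : Fin 6 → Fin 6 → Fin 6 → ℂ)
    (x y z : Fin 6 → F) : F :=
  ∑ i, ∑ j, ∑ k, algebraMap ℂ F (T i j k) * x i * y j * z k

/-- The three vectors `u` span a subspace on which `σ` and the three forms `h` vanish. -/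
def OnX {F : Type} [Field F] [Algebra ℂ F] (σ : Matrix (Fin 6) (Fin 6) ℂ)
    (h : Fin 3 → Fin 6 → Fin 6 → Fin 6 → ℂ) (u : Fin 3 → Fin 6 → F) : Prop :=
  (∀ i j, bil σ (u i) (u j) = 0) ∧ ∀ k, tri (h k) (u 0) (u 1) (u 2) = 0

/-- The differential at `u`, in the direction `φ`, of the six equations
`σ (u (r+1)) (u (r+2)) = 0`, indexed by `(0, r)`, and `h k (u 0) (u 1) (u 2) = 0`, indexed by
`(1, k)`. -/
noncomputable def dE {F : Type} [Field F] [Algebra ℂ F] (σ : Matrix (Fin 6) (Fin 6) ℂ)
    (h : Fin 3 → Fin 6 → Fin 6 → Fin 6 → ℂ) (u φ : Fin 3 → Fin 6 → F) (p : Fin 2 × Fin 3) : F :=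
  if p.1 = 0 then bil σ (φ (p.2 + 1)) (u (p.2 + 2)) + bil σ (u (p.2 + 1)) (φ (p.2 + 2))
  else tri (h p.2) (φ 0) (u 1) (u 2) + tri (h p.2) (u 0) (φ 1) (u 2) + tri (h p.2) (u 0) (u 1) (φ 2)

/-- Jacobian criterion: the zero scheme of the six equations in `Gr(3,6)` is smooth of dimension
three at each of its complex points. -/
def SmoothThreefold (σ : Matrix (Fin 6) (Fin 6) ℂ) (h : Fin 3 → Fin 6 → Fin 6 → Fin 6 → ℂ) : Prop :=
  ∀ u : Fin 3 → Fin 6 → ℂ, LinearIndependent ℂ u → OnX σ h u → Function.Surjective (dE σ h u)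

/-- The point with coordinates `x` in the affine chart of `Gr(3,6)` given by the basis `b`: its
`j`-th spanning vector is `b (inl j) + ∑ l, x (j, l) • b (inr l)`. -/
noncomputable def chartPoint (b : Fin 3 ⊕ Fin 3 → Fin 6 → ℂ) (x : Fin 3 × Fin 3 → K)
    (j : Fin 3) : Fin 6 → K :=
  fun n => algebraMap ℂ K (b (Sum.inl j) n) + ∑ l, x (j, l) * algebraMap ℂ K (b (Sum.inr l) n)

/-- The Jacobian determinant, at the point `x`, of the six equations with respect to the six
chart coordinates `x (j, l)` with `j ≠ 0`. -/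
noncomputable def jacE (σ : Matrix (Fin 6) (Fin 6) ℂ) (h : Fin 3 → Fin 6 → Fin 6 → Fin 6 → ℂ)
    (b : Fin 3 ⊕ Fin 3 → Fin 6 → ℂ) (x : Fin 3 × Fin 3 → K) : K :=
  (Matrix.of fun p q : Fin 2 × Fin 3 => dE σ h (chartPoint b x)
    (Pi.single p.1.succ fun n => algebraMap ℂ K (b (Sum.inr p.2) n)) q).det

end Pool.Agent.Work.MP_7daf81_ag.X16
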