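import Pool.Agent.Work.MP_7daf81_ag.X16.Asm1
import Pool.Agent.Work.MP_7daf81_ag.X16.Defs
import Pool.Agent.Work.MP_7daf81_ag.V22.Asm1

/-! Multilinear forms in coordinates and smoothness along a line. -/

namespace Pool.Agent.Work.MP_7daf81_ag.X16

open Matrix

section Form

variable (F : Type) [Field F] [Algebra ℂ F]

/-- The bilinear form as a bilinear map. -/
noncomputable def bilL (A : Matrix (Fin 6) (Fin 6) ℂ) : (Fin 6 → F) →ₗ[F] (Fin 6 → F) →ₗ[F] F :=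
  ∑ i, ∑ j, algebraMap ℂ F (A i j) • (LinearMap.proj i).smulRight (LinearMap.proj j)

/-- The trilinear form as a trilinear map. -/
noncomputable def triL (T : Fin 6 → Fin 6 → Fin 6 → ℂ) :
    (Fin 6 → F) →ₗ[F] (Fin 6 → F) →ₗ[F] (Fin 6 → F) →ₗ[F] F :=
  ∑ i, (LinearMap.proj i).smulRight (bilL F (T i))

variable {F}

theorem bil_eq (A : Matrix (Fin 6) (Fin 6) ℂ) (x y : Fin 6 → F) : bil A x y = bilL F A x y := by
  simp only [bil, bilL, LinearMap.sum_apply, LinearMap.smul_apply, LinearMap.smulRight_apply,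
    LinearMap.proj_apply, smul_eq_mul, mul_assoc]

theorem tri_eq (T : Fin 6 → Fin 6 → Fin 6 → ℂ) (x y z : Fin 6 → F) :
    tri T x y z = triL F T x y z := by
  simp only [tri, triL, LinearMap.sum_apply, LinearMap.smul_apply, LinearMap.smulRight_apply,
    LinearMap.proj_apply, smul_eq_mul, ← bil_eq, bil, Finset.mul_sum]
  exact Finset.sum_congr rfl fun i _ => Finset.sum_congr rfl fun j _ =>
    Finset.sum_congr rfl fun k _ => by ring

theorem bilL_skew {A : Matrix (Fin 6) (Fin 6) ℂ} (hA : ∀ i j, A i j = -A j i) (x y : Fin 6 → F) :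
    bilL F A x y = -bilL F A y x := by
  rw [← bil_eq, ← bil_eq, bil, bil, Finset.sum_comm, ← Finset.sum_neg_distrib]
  refine Finset.sum_congr rfl fun i _ => ?_
  rw [← Finset.sum_neg_distrib]
  refine Finset.sum_congr rfl fun j _ => ?_
  rw [hA j i, map_neg]; ring

theorem triL_skew1 {T : Fin 6 → Fin 6 → Fin 6 → ℂ} (hT : ∀ a b c, T a b c = -T b a c)
    (x y z : Fin 6 → F) : triL F T x y z = -triL F T y x z := by
  rw [← tri_eq, ← tri_eq, tri, tri, Finset.sum_comm, ← Finset.sum_neg_distrib]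
  refine Finset.sum_congr rfl fun i _ => ?_
  rw [← Finset.sum_neg_distrib]
  refine Finset.sum_congr rfl fun j _ => ?_
  rw [← Finset.sum_neg_distrib]
  refine Finset.sum_congr rfl fun k _ => ?_
  rw [hT j i, map_neg]; ring

theorem triL_skew2 {T : Fin 6 → Fin 6 → Fin 6 → ℂ} (hT : ∀ a b c, T a b c = -T a c b)
    (x y z : Fin 6 → F) : triL F T x y z = -triL F T x z y := by
  simp only [triL, LinearMap.sum_apply, LinearMap.smul_apply, LinearMap.smulRight_apply,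
    smul_eq_mul, ← Finset.sum_neg_distrib]
  refine Finset.sum_congr rfl fun i _ => ?_
  rw [bilL_skew (hT i)]; ring

/-- Extension of scalars of a vector. -/
noncomputable def up (F : Type) [Field F] [Algebra ℂ F] (x : Fin 6 → ℂ) : Fin 6 → F :=
  fun n => algebraMap ℂ F (x n)

theorem bilL_up (A : Matrix (Fin 6) (Fin 6) ℂ) (x y : Fin 6 → ℂ) :
    bilL F A (up F x) (up F y) = algebraMap ℂ F (bilL ℂ A x y) := by
  simp [← bil_eq, bil, up]

theorem triL_up (T : Fin 6 → Fin 6 → Fin 6 → ℂ) (x y z : Fin 6 → ℂ) :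
    triL F T (up F x) (up F y) (up F z) = algebraMap ℂ F (triL ℂ T x y z) := by
  simp [← tri_eq, tri, up]

end Form

theorem bilL_nondeg {A : Matrix (Fin 6) (Fin 6) ℂ} (hA : A.det ≠ 0) (x : Fin 6 → ℂ)
    (h : bilL ℂ A x = 0) : x = 0 := by
  refine eq_zero_of_vecMul_eq_zero hA (funext fun j => ?_)
  have := LinearMap.congr_fun h (Pi.single j 1)
  rw [← bil_eq] at this
  simpa [bil, Pi.single_apply, vecMul, dotProduct, mul_comm] using this

theorem star_abs {V : Type} [AddCommGroup V] [Module ℂ V] [FiniteDimensional ℂ V]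
    {σ : V →ₗ[ℂ] V →ₗ[ℂ] ℂ} {G : V →ₗ[ℂ] V →ₗ[ℂ] V →ₗ[ℂ] ℂ} (hV : Module.finrank ℂ V = 6)
    (hσ : ∀ x y, σ x y = -σ y x) (h1 : ∀ a b c, G a b c = -G b a c)
    (h2 : ∀ a b c, G a b c = -G a c b) {l1 l2 s1 s2 g1 g2 : V} (hb : SB σ l1 l2 s1 s2 g1 g2)
    (a1 : G l1 l2 s1 = 0) (a2 : G l1 l2 s2 = 0) (hα : G l1 s1 s2 - G l1 l2 g2 = 0)
    (hβ : G l2 s1 s2 + G l1 l2 g1 = 0) (v1 v2 : ℂ) (t0 : v1 * G s1 l1 g2 + v2 * G s2 l1 g2 = 0)
    (t1 : v1 * (G s1 l2 g2 - G s1 l1 g1) + v2 * (G s2 l2 g2 - G s2 l1 g1) = 0)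
    (t2 : v1 * -G s1 l2 g1 + v2 * -G s2 l2 g1 = 0) {s : V} (hs : s = v1 • s1 + v2 • s2) :
    ∃ ν0 ν1 ν2 : ℂ, ∀ φ0 φ1 φ2 : V, G φ0 l2 s + G l1 φ1 s + G l1 l2 φ2 +
      ν0 * (σ φ1 s + σ l2 φ2) + ν1 * (σ φ2 l1 + σ s φ0) + ν2 * (σ φ0 l2 + σ l1 φ1) = 0 := by
  have t := hb.tab hσ
  have y1 : ∀ a b, G a a b = 0 := fun a b => by linear_combination h1 a a b / 2
  have y2 : ∀ a b, G a b b = 0 := fun a b => by linear_combination h2 a b b / 2
  have y3 : ∀ a b, G a b a = 0 := fun a b => by rw [h2, y1, neg_zero]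
  have y4 : ∀ a b c, G a b c = G b c a := fun a b c => by rw [h1, h2, neg_neg]
  have y5 : ∀ a b c, G a b c = -G c b a := fun a b c => by rw [y4, h1]
  refine ⟨-G l1 l2 g2, G l1 l2 g1, -(v1 * G s1 l1 g1 + v2 * G s2 l1 g1), fun φ0 φ1 φ2 => ?_⟩
  obtain ⟨p0, p1, p2, p3, p4, p5, rfl⟩ := hb.span hV hσ φ0
  obtain ⟨q0, q1, q2, q3, q4, q5, rfl⟩ := hb.span hV hσ φ1
  obtain ⟨r0, r1, r2, r3, r4, r5, rfl⟩ := hb.span hV hσ φ2
  simp only [hs, map_add, map_smul, LinearMap.add_apply, LinearMap.smul_apply, smul_eq_mul, t,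
    y1, y2, y3, a1, a2, h1 s1 l2 s2, y4 s2 l2 s1, y5 g1 l2, y5 g2 l2, h2 l1 s2 s1,
    ← y4 s1 l1 g1, ← y4 s2 l1 g1, ← y4 s1 l1 g2, ← y4 s2 l1 g2]
  linear_combination (p3 * v1 - p2 * v2) * hβ + p4 * t2 - p5 * t1 + (q2 * v2 - q3 * v1) * hα +
    q5 * t0

variable {σ : Matrix (Fin 6) (Fin 6) ℂ} {h : Fin 3 → Fin 6 → Fin 6 → Fin 6 → ℂ}

theorem star_of_smooth (hσ : ∀ i j, σ i j = -σ j i) (h1 : ∀ k a b c, h k a b c = -h k b a c)
    (h2 : ∀ k a b c, h k a b c = -h k a c b) (hX : SmoothThreefold σ h)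
    {l1 l2 s1 s2 g1 g2 : Fin 6 → ℂ} (hb : SB (bilL ℂ σ) l1 l2 s1 s2 g1 g2)
    (hL : ∀ k, triL ℂ (h k) l1 l2 s1 = 0 ∧ triL ℂ (h k) l1 l2 s2 = 0) :
    Star (al (fun k => triL ℂ (h k)) l1 l2 s1 s2 g2) (be (fun k => triL ℂ (h k)) l1 l2 s1 s2 g1)
      (tau (fun k => triL ℂ (h k)) l1 l2 g1 g2 s1) (tau (fun k => triL ℂ (h k)) l1 l2 g1 g2 s2) := by
  intro μ v1 v2 hv ha hb' hc
  have hs := bilL_skew (F := ℂ) hσ
  have c0 := hc 0
  have c1 := hc 1
  have c2 := hc 2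
  simp only [al, be, tau, Fin.sum_univ_three, cons_val_zero, cons_val_one, cons_val] at ha hb' c0 c1 c2
  have hG : ∀ a b c, (μ 0 • triL ℂ (h 0) + μ 1 • triL ℂ (h 1) + μ 2 • triL ℂ (h 2)) a b c =
      μ 0 * triL ℂ (h 0) a b c + μ 1 * triL ℂ (h 1) a b c + μ 2 * triL ℂ (h 2) a b c :=
    fun a b c => rfl
  obtain ⟨ν0, ν1, ν2, hν⟩ := star_abs (G := μ 0 • triL ℂ (h 0) + μ 1 • triL ℂ (h 1) +
    μ 2 • triL ℂ (h 2)) (by simp) hs
    (fun a b c => by
      rw [hG, hG, triL_skew1 (h1 0), triL_skew1 (h1 1), triL_skew1 (h1 2)]; ring)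
    (fun a b c => by
      rw [hG, hG, triL_skew2 (h2 0), triL_skew2 (h2 1), triL_skew2 (h2 2)]; ring) hb
    (by simp [hG, hL]) (by simp [hG, hL]) (by simp only [hG]; linear_combination ha)
    (by simp only [hG]; linear_combination hb') v1 v2 (by simp only [hG]; linear_combination c0)
    (by simp only [hG]; linear_combination c1) (by simp only [hG]; linear_combination c2) rfl
  have t := hb.tab hs
  have hsurj := hX ![l1, l2, v1 • s1 + v2 • s2] (V22.Ind3.li fun a b c habc => by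
      obtain ⟨e0, e1, e2, e3, -⟩ := hb.ind hs (a := a) (b := b) (c := c * v1) (d := c * v2) (e := 0)
        (f := 0) (by rw [← habc]; module)
      refine ⟨e0, e1, ?_⟩
      by_contra hc
      exact hv ⟨(mul_eq_zero.mp e2).resolve_left hc, (mul_eq_zero.mp e3).resolve_left hc⟩)
    ⟨fun i j => by fin_cases i <;> fin_cases j <;> simp [bil_eq, t, mul_comm],
      fun k => by simp [tri_eq, hL]⟩
  funext k
  obtain ⟨φ, hφ⟩ := hsurj (Pi.single (1, k) 1)
  have e := hν (φ 0) (φ 1) (φ 2)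
  have e0 := congrFun hφ (0, 0)
  have e1 := congrFun hφ (0, 1)
  have e2 := congrFun hφ (0, 2)
  have f := fun j => congrFun hφ (1, j)
  simp only [dE, bil_eq, tri_eq, if_true, if_false, one_ne_zero, Fin.reduceAdd, zero_add,
    cons_val_zero, cons_val_one, cons_val, Pi.single_apply, Prod.mk.injEq, zero_ne_one, false_and,
    true_and] at e0 e1 e2 f
  rw [e0, e1, e2] at e
  simp only [hG] at e
  have : ∑ j, μ j * (if j = k then 1 else 0) = 0 := by
    rw [Fin.sum_univ_three, ← f 0, ← f 1, ← f 2]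
    linear_combination e
  simpa using this

/-- Reindexing of the six equations. -/
def eqv : Fin 3 ⊕ Fin 3 ≃ Fin 2 × Fin 3 :=
  ⟨Sum.elim (fun l => (0, l)) (fun l => (1, l)),
    fun p => if p.1 = 0 then Sum.inl p.2 else Sum.inr p.2, by decide, by decide⟩

theorem jacE_eq (b : Fin 3 ⊕ Fin 3 → Fin 6 → ℂ) (x : Fin 3 × Fin 3 → K) :
    jacE σ h b x = (JM (bilL K σ) (fun k => triL K (h k)) (chartPoint b x 0) (chartPoint b x 1)
      (chartPoint b x 2) fun l => up K (b (Sum.inr l))).det := by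
  rw [jacE, ← det_submatrix_equiv_self eqv]
  congr 1
  ext (l | l) (k | k)
  · fin_cases k <;> simp [eqv, dE, JM, bil_eq, up] <;> rfl
  · simp [eqv, dE, JM, tri_eq, up]; rfl
  · fin_cases k <;> simp [eqv, dE, JM, bil_eq, up] <;> rfl
  · simp [eqv, dE, JM, tri_eq, up]; rfl

end Pool.Agent.Work.MP_7daf81_ag.X16
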