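import Mathlib

/-! Quadrics in more variables than equations have a common nonzero zero. -/

namespace Pool.Agent.Work.MP_7daf81_ag.X16

open MvPolynomial

theorem exists_common_zero {n : ℕ} (f : Fin n → MvPolynomial (Fin (n + 1)) ℂ)
    (hf : ∀ i, eval 0 (f i) = 0) : ∃ x : Fin (n + 1) → ℂ, x ≠ 0 ∧ ∀ i, eval x (f i) = 0 := by
  classical
  by_contra hcon
  push Not at hcon
  set I : Ideal (MvPolynomial (Fin (n + 1)) ℂ) := Ideal.span (Finset.univ.image f : Finset _) with hI
  have hz : zeroLocus ℂ I = {0} := by
    rw [hI, zeroLocus_span]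
    ext x
    simp only [Finset.coe_image, Finset.coe_univ, Set.image_univ, Set.mem_range, Set.mem_setOf_eq,
      Set.mem_singleton_iff, forall_exists_index, forall_apply_eq_imp_iff, aeval_eq_eval]
    constructor
    · intro h
      by_contra hx
      obtain ⟨i, hi⟩ := hcon x hx
      exact hi (h i)
    · rintro rfl
      exact hf
  let P : ℕ → Ideal (MvPolynomial (Fin (n + 1)) ℂ) := fun k => RingHom.ker
    (aeval (R := ℂ) fun i : Fin (n + 1) => if (i : ℕ) < k then (0 : MvPolynomial (Fin (n + 1)) ℂ) else X i)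
  have hP : ∀ k, (P k).IsPrime := fun k => RingHom.ker_isPrime _
  have hlt : ∀ k, k ≤ n → P k < P (k + 1) := by
    intro k hk
    refine lt_of_le_of_ne (fun p hp => ?_) fun h => ?_
    · rw [RingHom.mem_ker] at hp ⊢
      have := congrArg (aeval (R := ℂ) fun i : Fin (n + 1) =>
        if (i : ℕ) < k + 1 then (0 : MvPolynomial (Fin (n + 1)) ℂ) else X i) hp
      rw [map_zero, ← AlgHom.comp_apply, comp_aeval] at this
      convert this using 3
      funext i
      by_cases h2 : (i : ℕ) < k
      · rw [if_pos h2, if_pos (by omega), map_zero]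
      · rw [if_neg h2, aeval_X]
    · have h1 : X ⟨k, by omega⟩ ∈ P (k + 1) := by simp [P, RingHom.mem_ker]
      rw [← h] at h1
      simp [P, RingHom.mem_ker] at h1
  have hh : ∀ k : ℕ, k ≤ n + 1 → (k : ℕ∞) ≤ (P k).height := by
    intro k
    induction k with
    | zero => simp
    | succ k ih =>
      intro hk
      have := hP k
      have := hP (k + 1)
      refine le_trans ?_ (Ideal.height_add_one_le_of_lt_of_isPrime (hlt k (by omega)))
      push_cast
      gcongr
      exact ih (by omega)
  have hm : I.radical = P (n + 1) := by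
    rw [← vanishingIdeal_zeroLocus_eq_radical (K := ℂ), hz]
    ext p
    rw [mem_vanishingIdeal_singleton_iff, RingHom.mem_ker]
    have : (fun i : Fin (n + 1) => if (i : ℕ) < n + 1 then (0 : MvPolynomial (Fin (n + 1)) ℂ)
        else X i) = 0 := by
      funext i
      simp [i.2]
    rw [this, aeval_zero, aeval_zero]
    simp
  have hmin : P (n + 1) ∈ I.minimalPrimes := by
    have := hP (n + 1)
    rw [← Ideal.radical_minimalPrimes, hm, Ideal.minimalPrimes_eq_subsingleton_self]
    rfl
  have h1 := Ideal.height_le_card_of_mem_minimalPrimes_span_finset hmin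
  have h2 : (Finset.univ.image f).card ≤ n := Finset.card_image_le.trans (by simp)
  have h3 := (hh (n + 1) le_rfl).trans h1
  have h4 : n + 1 ≤ (Finset.univ.image f).card := by exact_mod_cast h3
  omega

theorem exists_common_zero_bil {n : ℕ} {V : Type} [AddCommGroup V] [Module ℂ V]
    [FiniteDimensional ℂ V] (hV : Module.finrank ℂ V = n + 1) (B : Fin n → V →ₗ[ℂ] V →ₗ[ℂ] ℂ) :
    ∃ x : V, x ≠ 0 ∧ ∀ i, B i x x = 0 := by
  let b := Module.finBasisOfFinrankEq ℂ V hV
  obtain ⟨x, hx, h⟩ := exists_common_zero
    (fun i => ∑ p, ∑ q, C (B i (b p) (b q)) * X p * X q) (by simp)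
  refine ⟨∑ p, x p • b p, fun h0 => hx ?_, fun i => ?_⟩
  · funext p
    exact Fintype.linearIndependent_iff.mp b.linearIndependent x h0 p
  · have := h i
    simp only [map_sum, map_mul, eval_C, eval_X] at this
    simp only [map_sum, map_smul, LinearMap.sum_apply, LinearMap.smul_apply, smul_eq_mul]
    rw [← this, Finset.sum_comm]
    refine Finset.sum_congr rfl fun q _ => ?_
    rw [Finset.mul_sum]
    exact Finset.sum_congr rfl fun p _ => by ring

end Pool.Agent.Work.MP_7daf81_ag.X16
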