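import Pool.Agent.Work.MP_7daf81_ag.V22.L4
import Pool.Agent.Work.MP_7daf81_ag.X16.PD

/-! Symplectic bases of a six-dimensional space. -/

namespace Pool.Agent.Work.MP_7daf81_ag.X16

open Module Pool.Agent.Work.MP_7daf81_ag.V22

/-- A symplectic basis. -/
structure SB {F V : Type} [Field F] [AddCommGroup V] [Module F V] (σ : V →ₗ[F] V →ₗ[F] F)
    (l1 l2 s1 s2 g1 g2 : V) : Prop where
  ll : σ l1 l2 = 0
  l1s1 : σ l1 s1 = 0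
  l1s2 : σ l1 s2 = 0
  l2s1 : σ l2 s1 = 0
  l2s2 : σ l2 s2 = 0
  l1g1 : σ l1 g1 = 1
  l1g2 : σ l1 g2 = 0
  l2g1 : σ l2 g1 = 0
  l2g2 : σ l2 g2 = 1
  ss : σ s1 s2 = 1
  s1g1 : σ s1 g1 = 0
  s1g2 : σ s1 g2 = 0
  s2g1 : σ s2 g1 = 0
  s2g2 : σ s2 g2 = 0
  gg : σ g1 g2 = 0

theorem SB.tab {F V : Type} [Field F] [CharZero F] [AddCommGroup V] [Module F V]
    {σ : V →ₗ[F] V →ₗ[F] F} (hσ : ∀ x y, σ x y = -σ y x) {l1 l2 s1 s2 g1 g2 : V}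
    (h : SB σ l1 l2 s1 s2 g1 g2) : (∀ x, σ x x = 0) ∧
    (σ l1 l2 = 0 ∧ σ l1 s1 = 0 ∧ σ l1 s2 = 0 ∧ σ l2 s1 = 0 ∧ σ l2 s2 = 0 ∧ σ l1 g1 = 1 ∧
      σ l1 g2 = 0 ∧ σ l2 g1 = 0 ∧ σ l2 g2 = 1 ∧ σ s1 s2 = 1 ∧ σ s1 g1 = 0 ∧ σ s1 g2 = 0 ∧
      σ s2 g1 = 0 ∧ σ s2 g2 = 0 ∧ σ g1 g2 = 0) ∧
    σ l2 l1 = 0 ∧ σ s1 l1 = 0 ∧ σ s2 l1 = 0 ∧ σ s1 l2 = 0 ∧ σ s2 l2 = 0 ∧ σ g1 l1 = -1 ∧
      σ g2 l1 = 0 ∧ σ g1 l2 = 0 ∧ σ g2 l2 = -1 ∧ σ s2 s1 = -1 ∧ σ g1 s1 = 0 ∧ σ g2 s1 = 0 ∧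
      σ g1 s2 = 0 ∧ σ g2 s2 = 0 ∧ σ g2 g1 = 0 := by
  refine ⟨fun x => by linear_combination hσ x x / 2, ⟨h.1, h.2, h.3, h.4, h.5, h.6, h.7, h.8, h.9,
    h.10, h.11, h.12, h.13, h.14, h.15⟩, ?_, ?_, ?_, ?_, ?_, ?_, ?_, ?_, ?_, ?_, ?_, ?_, ?_, ?_, ?_⟩
  all_goals rw [hσ]
  all_goals simp only [h.1, h.2, h.3, h.4, h.5, h.6, h.7, h.8, h.9, h.10, h.11, h.12, h.13, h.14,
    h.15, neg_zero]

variable {V : Type} [AddCommGroup V] [Module ℂ V] {σ : V →ₗ[ℂ] V →ₗ[ℂ] ℂ}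

theorem SB.ind (hσ : ∀ x y, σ x y = -σ y x) {l1 l2 s1 s2 g1 g2 : V} (h : SB σ l1 l2 s1 s2 g1 g2)
    {a b c d e f : ℂ} (h0 : a • l1 + b • l2 + c • s1 + d • s2 + e • g1 + f • g2 = 0) :
    a = 0 ∧ b = 0 ∧ c = 0 ∧ d = 0 ∧ e = 0 ∧ f = 0 := by
  have t := h.tab hσ
  have e1 := congrArg (σ l1) h0
  have e2 := congrArg (σ l2) h0
  have e3 := congrArg (σ s1) h0
  have e4 := congrArg (σ s2) h0
  have e5 := congrArg (σ g1) h0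
  have e6 := congrArg (σ g2) h0
  simp only [map_add, map_smul, smul_eq_mul, t, mul_zero, mul_one, add_zero, zero_add, map_zero,
    mul_neg, neg_eq_zero] at e1 e2 e3 e4 e5 e6
  exact ⟨e5, e6, e4, e3, e1, e2⟩

variable [FiniteDimensional ℂ V]

theorem SB.span (hV : finrank ℂ V = 6) (hσ : ∀ x y, σ x y = -σ y x) {l1 l2 s1 s2 g1 g2 : V}
    (h : SB σ l1 l2 s1 s2 g1 g2) (v : V) :
    ∃ a b c d e f : ℂ, v = a • l1 + b • l2 + c • s1 + d • s2 + e • g1 + f • g2 := by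
  have hi : LinearIndependent ℂ ![l1, l2, s1, s2, g1, g2] := by
    rw [Fintype.linearIndependent_iff]
    intro c hc i
    obtain ⟨h0, h1, h2, h3, h4, h5⟩ := h.ind hσ (a := c 0) (b := c 1) (c := c 2) (d := c 3)
      (e := c 4) (f := c 5) (by simpa [Fin.sum_univ_six] using hc)
    fin_cases i
    exacts [h0, h1, h2, h3, h4, h5]
  have := hi.span_eq_top_of_card_eq_finrank (by rw [hV]; rfl)
  obtain ⟨c, hc⟩ := (Submodule.mem_span_range_iff_exists_fun ℂ).mp (this ▸ Submodule.mem_top (x := v))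
  exact ⟨c 0, c 1, c 2, c 3, c 4, c 5, by rw [← hc]; simp [Fin.sum_univ_six]⟩

theorem SB.dec (hV : finrank ℂ V = 6) (hσ : ∀ x y, σ x y = -σ y x) {l1 l2 s1 s2 g1 g2 : V}
    (h : SB σ l1 l2 s1 s2 g1 g2) (v : V) :
    v = σ v g1 • l1 + σ v g2 • l2 + σ v s2 • s1 - σ v s1 • s2 - σ v l1 • g1 - σ v l2 • g2 := by
  obtain ⟨a, b, c, d, e, f, rfl⟩ := h.span hV hσ v
  have t := h.tab hσ
  simp only [map_add, map_smul, LinearMap.add_apply, LinearMap.smul_apply, smul_eq_mul, t, mul_zero,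
    mul_one, add_zero, zero_add, mul_neg]
  module

theorem SB.trace (hV : finrank ℂ V = 6) (hσ : ∀ x y, σ x y = -σ y x) {l1 l2 s1 s2 g1 g2 : V}
    (h : SB σ l1 l2 s1 s2 g1 g2) (T : V →ₗ[ℂ] V) :
    LinearMap.trace ℂ V T = σ (T l1) g1 + σ (T l2) g2 + σ (T s1) s2 - σ (T s2) s1 - σ (T g1) l1 -
      σ (T g2) l2 := by
  have : T = (σ.flip g1).smulRight (T l1) + (σ.flip g2).smulRight (T l2) +
      (σ.flip s2).smulRight (T s1) - (σ.flip s1).smulRight (T s2) - (σ.flip l1).smulRight (T g1) -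
      (σ.flip l2).smulRight (T g2) := by
    ext v
    conv_lhs => rw [h.dec hV hσ v]
    simp
  conv_lhs => rw [this]
  simp only [map_add, map_sub, LinearMap.trace_smulRight, LinearMap.flip_apply]

theorem exists_SB (hV : finrank ℂ V = 6) (hσ : ∀ x y, σ x y = -σ y x) (hnd : ∀ x, σ x = 0 → x = 0)
    {l1 l2 : V} (hi : Ind2 l1 l2) (h : σ l1 l2 = 0) : ∃ s1 s2 g1 g2, SB σ l1 l2 s1 s2 g1 g2 := by
  have halt : ∀ x, σ x x = 0 := fun x => by linear_combination hσ x x / 2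
  obtain ⟨g1, g, a1, a2, a3, a4⟩ := dual_pair hnd hi
  have h' : σ l2 l1 = 0 := by rw [hσ, h, neg_zero]
  have a1' : σ g1 l1 = -1 := by rw [hσ, a1]
  obtain ⟨g2, b2, b4, b5⟩ : ∃ g2, σ l1 g2 = 0 ∧ σ l2 g2 = 1 ∧ σ g1 g2 = 0 :=
    ⟨g + σ g1 g • l1, by simp [a2, halt], by simp [a4, h'], by simp [a1']⟩
  let f : V →ₗ[ℂ] (Fin 4 → ℂ) := LinearMap.pi ![σ l1, σ l2, σ g1, σ g2]
  obtain ⟨u, hu, hu0⟩ := (Submodule.ne_bot_iff _).mp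
    (LinearMap.ker_ne_bot_of_finrank_lt (f := f) (by simp [hV]))
  have u1 : σ l1 u = 0 := congrFun hu 0
  have u2 : σ l2 u = 0 := congrFun hu 1
  have u3 : σ g1 u = 0 := congrFun hu 2
  have u4 : σ g2 u = 0 := congrFun hu 3
  have v1 : σ u l1 = 0 := by rw [hσ, u1, neg_zero]
  have v2 : σ u l2 = 0 := by rw [hσ, u2, neg_zero]
  have v3 : σ u g1 = 0 := by rw [hσ, u3, neg_zero]
  have v4 : σ u g2 = 0 := by rw [hσ, u4, neg_zero]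
  have b5' : σ g2 g1 = 0 := by rw [hσ, b5, neg_zero]
  obtain ⟨k, hk⟩ := exists_one hnd hu0
  refine ⟨u, k - σ k g1 • l1 - σ k g2 • l2 - σ l1 k • g1 - σ l2 k • g2, g1, g2,
    h, u1, ?_, u2, ?_, a1, b2, a3, b4, ?_, v3, v4, ?_, ?_, b5⟩ <;>
  simp [halt, h, h', a1, a3, b2, b4, b5, b5', hk, v1, v2, v3, v4]

theorem exists_SB1 (hV : finrank ℂ V = 6) (hσ : ∀ x y, σ x y = -σ y x) (hnd : ∀ x, σ x = 0 → x = 0)
    {x : V} (hx : x ≠ 0) : ∃ l2 s1 s2 g1 g2, SB σ x l2 s1 s2 g1 g2 := by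
  obtain ⟨g, hg⟩ := exists_one hnd hx
  let f : V →ₗ[ℂ] (Fin 2 → ℂ) := LinearMap.pi ![σ x, σ g]
  obtain ⟨u, hu, hu0⟩ := (Submodule.ne_bot_iff _).mp
    (LinearMap.ker_ne_bot_of_finrank_lt (f := f) (by simp [hV]))
  have u1 : σ x u = 0 := congrFun hu 0
  have u2 : σ g u = 0 := congrFun hu 1
  refine ⟨u, exists_SB hV hσ hnd (Ind2.of_not hx fun c hc => hu0 ?_) u1⟩
  rw [hc, map_smul, hσ, hg] at u2
  simp only [smul_eq_mul, mul_neg, mul_one, neg_eq_zero] at u2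
  rw [hc, u2, zero_smul]

end Pool.Agent.Work.MP_7daf81_ag.X16
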