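import Pool.Agent.Work.MP_7daf81_ag.X16.Lin

/-! Every linear section of the Lagrangian Grassmannian by three hyperplanes contains a line. -/

namespace Pool.Agent.Work.MP_7daf81_ag.X16

open Module Matrix Pool.Agent.Work.MP_7daf81_ag.V22

theorem common_eig_abs {E : Type} [AddCommGroup E] [Module ℂ E] [FiniteDimensional ℂ E]
    [Nontrivial E] (J0 J1 J2 : E →ₗ[ℂ] E) (h11 : ∀ w, J1 (J1 w) = 0) (h22 : ∀ w, J2 (J2 w) = 0)
    (h12 : ∀ w, J1 (J2 w) = -J2 (J1 w)) (h01 : ∀ w, J1 (J0 w) = -J0 (J1 w))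
    (h02 : ∀ w, J2 (J0 w) = -J0 (J2 w)) :
    ∃ w, w ≠ 0 ∧ J1 w = 0 ∧ J2 w = 0 ∧ ∃ l : ℂ, J0 w = l • w := by
  obtain ⟨w, hw⟩ := exists_ne (0 : E)
  obtain ⟨u, hu, u1⟩ : ∃ u, u ≠ 0 ∧ J1 u = 0 := by
    by_cases h : J1 w = 0
    exacts [⟨w, hw, h⟩, ⟨J1 w, h, h11 w⟩]
  obtain ⟨v, hv, v1, v2⟩ : ∃ v, v ≠ 0 ∧ J1 v = 0 ∧ J2 v = 0 := by
    by_cases h : J2 u = 0
    exacts [⟨u, hu, u1, h⟩, ⟨J2 u, h, by rw [h12, u1, map_zero, neg_zero], h22 u⟩]
  let W : Submodule ℂ E := LinearMap.ker J1 ⊓ LinearMap.ker J2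
  have hW : ∀ x ∈ W, J0 x ∈ W := fun x hx =>
    ⟨by rw [SetLike.mem_coe, LinearMap.mem_ker, h01, hx.1, map_zero, neg_zero],
      by rw [SetLike.mem_coe, LinearMap.mem_ker, h02, hx.2, map_zero, neg_zero]⟩
  have : Nontrivial W := ⟨⟨v, v1, v2⟩, 0, fun h => hv (congrArg Subtype.val h)⟩
  obtain ⟨l, hl⟩ := Module.End.exists_eigenvalue (J0.restrict hW)
  obtain ⟨x, hx⟩ := hl.exists_hasEigenvector
  exact ⟨x, fun h => hx.2 (Subtype.ext h), x.2.1, x.2.2, l, congrArg Subtype.val hx.apply_eq_smul⟩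

/-- The traceless part of a self-adjoint operator of a symplectic four-space. -/
def Jm (m c d e f : ℂ) : Matrix (Fin 4) (Fin 4) ℂ :=
  !![m, 0, d, -c; 0, m, f, -e; -e, c, -m, 0; -f, d, 0, -m]

theorem vecMul_Jm (m c d e f : ℂ) (w : Fin 4 → ℂ) : w ᵥ* Jm m c d e f =
    ![w 0 * m - w 2 * e - w 3 * f, w 1 * m + w 2 * c + w 3 * d, w 0 * d + w 1 * f - w 2 * m,
      -(w 0 * c) - w 1 * e - w 3 * m] := by
  funext i
  fin_cases i <;> simp [Jm, vecMul, dotProduct, Fin.sum_univ_four] <;> ring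

theorem Jm_anti (m c d e f m' c' d' e' f' : ℂ)
    (h : 2 * m * m' - d * e' - d' * e + c * f' + c' * f = 0) (w : Fin 4 → ℂ) :
    (Jm m c d e f).vecMulLinear ((Jm m' c' d' e' f').vecMulLinear w) =
      -(Jm m' c' d' e' f').vecMulLinear ((Jm m c d e f).vecMulLinear w) := by
  simp only [vecMulLinear_apply, vecMul_Jm, cons_val_zero, cons_val_one, cons_val]
  funext i
  fin_cases i <;> simp
  · linear_combination w 0 * h
  · linear_combination w 1 * h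
  · linear_combination w 2 * h
  · linear_combination w 3 * h

theorem common_eig (m c d e f : Fin 3 → ℂ)
    (h : ∀ j k, j ≠ 0 → 2 * m j * m k - d j * e k - d k * e j + c j * f k + c k * f j = 0) :
    ∃ w : Fin 4 → ℂ, w ≠ 0 ∧ ∀ k, ∃ l : ℂ, w ᵥ* Jm (m k) (c k) (d k) (e k) (f k) = l • w := by
  have hs : ∀ k, k ≠ 0 → ∀ w, (Jm (m k) (c k) (d k) (e k) (f k)).vecMulLinear
      ((Jm (m k) (c k) (d k) (e k) (f k)).vecMulLinear w) = 0 := fun k hk w => by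
    have := Jm_anti _ _ _ _ _ _ _ _ _ _ (h k k hk) w
    funext i
    have := congrFun this i
    rw [Pi.neg_apply] at this
    rw [Pi.zero_apply]
    linear_combination this / 2
  obtain ⟨w, hw, w1, w2, l, w0⟩ := common_eig_abs (Jm (m 0) (c 0) (d 0) (e 0) (f 0)).vecMulLinear
    _ _ (hs 1 (by decide)) (hs 2 (by decide)) (Jm_anti _ _ _ _ _ _ _ _ _ _ (h 1 2 (by decide)))
    (Jm_anti _ _ _ _ _ _ _ _ _ _ (h 1 0 (by decide)))
    (Jm_anti _ _ _ _ _ _ _ _ _ _ (h 2 0 (by decide)))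
  refine ⟨w, hw, fun k => ?_⟩
  fin_cases k
  · exact ⟨l, w0⟩
  · exact ⟨0, by rw [zero_smul]; exact w1⟩
  · exact ⟨0, by rw [zero_smul]; exact w2⟩

variable {V : Type} [AddCommGroup V] [Module ℂ V] [FiniteDimensional ℂ V]
  {σ : V →ₗ[ℂ] V →ₗ[ℂ] ℂ} {H : Fin 3 → V →ₗ[ℂ] V →ₗ[ℂ] V →ₗ[ℂ] ℂ}

theorem exists_line (hV : finrank ℂ V = 6) (hσ : ∀ x y, σ x y = -σ y x)
    (hnd : ∀ x, σ x = 0 → x = 0) (h1 : ∀ k a b c, H k a b c = -H k b a c)
    (h2 : ∀ k a b c, H k a b c = -H k a c b) :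
    ∃ l1 l2 s1 s2 g1 g2, SB σ l1 l2 s1 s2 g1 g2 ∧ ∀ k, H k l1 l2 s1 = 0 ∧ H k l1 l2 s2 = 0 := by
  let e : V ≃ₗ[ℂ] (V →ₗ[ℂ] ℂ) := LinearEquiv.ofBijective σ
    ⟨(injective_iff_map_eq_zero σ).mpr hnd, fun ξ =>
      exists_preimage σ hσ ξ fun x hx => by rw [hnd x hx, map_zero]⟩
  let A : Fin 3 → V →ₗ[ℂ] V →ₗ[ℂ] V := fun k => (H k).compr₂ e.symm.toLinearMap
  have hA : ∀ k x y z, σ (A k x y) z = H k x y z := fun k x y z =>
    LinearMap.congr_fun (e.apply_symm_apply (H k x y)) z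
  let B : Fin 3 → Fin 3 → V →ₗ[ℂ] V →ₗ[ℂ] ℂ := fun j k =>
    ((LinearMap.mul ℂ (V →ₗ[ℂ] V)).compl₁₂ (A j) (A k)).compr₂ (LinearMap.trace ℂ V) -
      (1 / 4 : ℂ) • (LinearMap.mul ℂ ℂ).compl₁₂ (LinearMap.trace ℂ V ∘ₗ A j)
        (LinearMap.trace ℂ V ∘ₗ A k)
  have hB : ∀ j k x, B j k x x = LinearMap.trace ℂ V (A j x ∘ₗ A k x) -
      1 / 4 * (LinearMap.trace ℂ V (A j x) * LinearMap.trace ℂ V (A k x)) := fun j k x => rfl
  obtain ⟨x, hx, hq⟩ := exists_common_zero_bil (n := 5) hV ![B 1 0, B 1 1, B 1 2, B 2 0, B 2 2]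
  obtain ⟨p1, p2, q2, y, q1, hb⟩ := exists_SB1 hV hσ hnd hx
  have z1 : ∀ k b, H k x x b = 0 := fun k b => by linear_combination h1 k x x b / 2
  have z2 : ∀ k a b, H k a b b = 0 := fun k a b => by linear_combination h2 k a b b / 2
  have z3 : ∀ k b, H k x b x = 0 := fun k b => by rw [h2, z1, neg_zero]
  have hAx : ∀ k, A k x x = 0 := fun k => hnd _ (LinearMap.ext fun z => by rw [hA, z1]; rfl)
  have hAA : ∀ j k w z, H j x (A k x w) z = H k x w q1 * H j x p1 z + H k x w q2 * H j x p2 z -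
      H k x w p2 * H j x q2 z - H k x w p1 * H j x q1 z := fun j k w z => by
    rw [hb.dec hV hσ (A k x w)]
    simp only [hA, map_add, map_sub, map_smul, LinearMap.add_apply, LinearMap.sub_apply,
      LinearMap.smul_apply, smul_eq_mul, z1, z3]
    ring
  have hG : ∀ j k, B j k x x = 0 → 2 * ((H j x p1 q1 - H j x p2 q2) / 2) *
      ((H k x p1 q1 - H k x p2 q2) / 2) - H j x p1 q2 * H k x q1 p2 - H k x p1 q2 * H j x q1 p2 +
      H j x p1 p2 * H k x q1 q2 + H k x p1 p2 * H j x q1 q2 = 0 := fun j k h => by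
    rw [hB, hb.trace hV hσ, hb.trace hV hσ, hb.trace hV hσ] at h
    simp only [LinearMap.comp_apply, hA, hAA, hAx, map_zero, LinearMap.zero_apply, z1, z2, z3,
      h2 _ x q1 p1, h2 _ x p2 p1, h2 _ x q2 p1, h2 _ x p2 q1, h2 _ x q2 q1, h2 _ x q2 p2] at h
    linear_combination h / 2
  obtain ⟨w, hw, hl⟩ := common_eig (fun k => (H k x p1 q1 - H k x p2 q2) / 2)
    (fun k => H k x p1 p2) (fun k => H k x p1 q2) (fun k => H k x q1 p2) (fun k => H k x q1 q2)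
    (by
      intro j k hj
      fin_cases j
      · exact absurd rfl hj
      · fin_cases k
        exacts [hG 1 0 (hq 0), hG 1 1 (hq 1), hG 1 2 (hq 2)]
      · fin_cases k
        · exact hG 2 0 (hq 3)
        · have := hG 1 2 (hq 2)
          simp only [Fin.reduceFinMk]
          linear_combination this
        · exact hG 2 2 (hq 4))
  set v := w 0 • p1 + w 1 • q1 + w 2 • p2 + w 3 • q2 with hv
  have t := hb.tab hσ
  have hxv : σ x v = 0 := by simp [hv, t]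
  have hi : Ind2 x v := Ind2.of_not hx fun c hc => hw (by
    obtain ⟨-, a1, a2, a3, -, a5⟩ := hb.ind hσ (a := -c) (b := w 0) (c := w 2) (d := w 3) (e := 0)
      (f := w 1) (by rw [neg_smul, ← hc, hv]; module)
    funext i
    fin_cases i
    exacts [a1, a5, a2, a3])
  have hz : ∀ k z, σ x z = 0 → σ v z = 0 → H k x v z = 0 := by
    intro k z a1 a2
    obtain ⟨l, hl⟩ := hl k
    rw [vecMul_Jm] at hl
    have e0 := congrFun hl 0
    have e1 := congrFun hl 1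
    have e2 := congrFun hl 2
    have e3 := congrFun hl 3
    simp only [cons_val_zero, cons_val_one, cons_val, Pi.smul_apply, smul_eq_mul] at e0 e1 e2 e3
    obtain ⟨a, b, c, d, e', f, rfl⟩ := hb.span hV hσ z
    simp only [hv, map_add, map_smul, LinearMap.add_apply, LinearMap.smul_apply, smul_eq_mul, t,
      mul_zero, mul_one, add_zero, zero_add, z2, z3, h2 _ x q1 p1, h2 _ x p2 p1, h2 _ x q2 p1,
      h2 _ x p2 q1, h2 _ x q2 q1, h2 _ x q2 p2] at a1 a2 ⊢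
    rw [a1]
    linear_combination f * e0 - b * e1 + d * e2 - c * e3 +
      (l + (H k x p1 q1 + H k x p2 q2) / 2) * a2
  obtain ⟨s1, s2, g1, g2, hs⟩ := exists_SB hV hσ hnd hi hxv
  exact ⟨x, v, s1, s2, g1, g2, hs, fun k => ⟨hz k _ hs.l1s1 hs.l2s1, hz k _ hs.l1s2 hs.l2s2⟩⟩

end Pool.Agent.Work.MP_7daf81_ag.X16
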