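import Pool.Agent.Work.MP_7daf81_ag.X16.Asm2

/-! The main theorem. -/

namespace Pool.Agent.Work.MP_7daf81_ag.X16

open Matrix

theorem det_four {F : Type} [CommRing F] (A : Matrix (Fin 4) (Fin 4) F) : A.det =
    A 0 0 * (A 1 1 * A 2 2 * A 3 3 - A 1 1 * A 2 3 * A 3 2 - A 1 2 * A 2 1 * A 3 3 +
      A 1 2 * A 2 3 * A 3 1 + A 1 3 * A 2 1 * A 3 2 - A 1 3 * A 2 2 * A 3 1) -
    A 0 1 * (A 1 0 * A 2 2 * A 3 3 - A 1 0 * A 2 3 * A 3 2 - A 1 2 * A 2 0 * A 3 3 +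
      A 1 2 * A 2 3 * A 3 0 + A 1 3 * A 2 0 * A 3 2 - A 1 3 * A 2 2 * A 3 0) +
    A 0 2 * (A 1 0 * A 2 1 * A 3 3 - A 1 0 * A 2 3 * A 3 1 - A 1 1 * A 2 0 * A 3 3 +
      A 1 1 * A 2 3 * A 3 0 + A 1 3 * A 2 0 * A 3 1 - A 1 3 * A 2 1 * A 3 0) -
    A 0 3 * (A 1 0 * A 2 1 * A 3 2 - A 1 0 * A 2 2 * A 3 1 - A 1 1 * A 2 0 * A 3 2 +
      A 1 1 * A 2 2 * A 3 0 + A 1 2 * A 2 0 * A 3 1 - A 1 2 * A 2 1 * A 3 0) := by
  rw [Matrix.det_succ_row_zero]
  simp [Fin.sum_univ_succ, det_fin_three, Fin.succAbove]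
  ring

theorem det_Gam {F : Type} [Field F] (A : Matrix (Fin 4) (Fin 4) F) (y : Fin 3 → F) (x : Fin 4 → F)
    (hx : ∀ n, x n = y 0 * A 0 n + y 1 * A 1 n + y 2 * A 2 n + A 3 n) (h2 : x 2 ≠ 0) :
    (of fun l m : Fin 3 => A l.castSucc (![0, 1, 3] m) - A l.castSucc 2 / x 2 * x (![0, 1, 3] m)).det *
      x 2 = -A.det := by
  have c0 : (0 : Fin 3).castSucc = (0 : Fin 4) := rfl
  have c1 : (1 : Fin 3).castSucc = (1 : Fin 4) := rfl
  have c2 : (2 : Fin 3).castSucc = (2 : Fin 4) := rfl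
  have h3 : ∀ n, A 3 n = x n - (y 0 * A 0 n + y 1 * A 1 n + y 2 * A 2 n) := fun n => by
    rw [hx]; ring
  rw [det_four, det_fin_three]
  simp only [of_apply, c0, c1, c2, cons_val_zero, cons_val_one, cons_val, h3]
  field_simp
  ring

theorem toricChart (σ : Matrix (Fin 6) (Fin 6) ℂ) (hσ : σᵀ = -σ) (hdet : σ.det ≠ 0)
    (h : Fin 3 → Fin 6 → Fin 6 → Fin 6 → ℂ) (h1 : ∀ k a b c, h k a b c = -h k b a c)
    (h2 : ∀ k a b c, h k a b c = -h k a c b) (hX : SmoothThreefold σ h) :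
    ∃ b : Fin 3 ⊕ Fin 3 → Fin 6 → ℂ, LinearIndependent ℂ b ∧
      ∃ x : Fin 3 × Fin 3 → K, OnX σ h (chartPoint b x) ∧
        IntermediateField.adjoin ℂ (Set.range x) = ⊤ ∧ jacE σ h b x ≠ 0 ∧
        ∃ c : ℂ, c ≠ 0 ∧ ∀ D : Fin 3 → Derivation ℂ K K,
          (Matrix.of fun i l => D i (x (0, l))).det * (tt 0 * tt 1 * tt 2) =
            algebraMap ℂ K c * (Matrix.of fun i j => D i (tt j)).det * jacE σ h b x := by
  have hσ' : ∀ i j, σ i j = -σ j i := fun i j => by simpa using congrFun (congrFun hσ j) i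
  have hs := bilL_skew (F := ℂ) hσ'
  have hsK := bilL_skew (F := K) hσ'
  have h1K := fun k => triL_skew1 (F := K) (h1 k)
  have h2K := fun k => triL_skew2 (F := K) (h2 k)
  obtain ⟨l1, l2, s1, s2, g1, g2, hb, hL⟩ := exists_line (H := fun k => triL ℂ (h k)) (by simp) hs
    (bilL_nondeg hdet) (fun k => triL_skew1 (h1 k)) (fun k => triL_skew2 (h2 k))
  obtain ⟨Λ, hΛ, y, c, hc, hF, hgen, hJ⟩ := torS_of_star (star_of_smooth hσ' h1 h2 hX hb hL)
  have hbK : SB (bilL K σ) (up K l1) (up K l2) (up K s1) (up K s2) (up K g1) (up K g2) := by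
    constructor <;> simp only [bilL_up, hb.tab hs, map_zero, map_one]
  have hLK : ∀ k, triL K (h k) (up K l1) (up K l2) (up K s1) = 0 ∧
      triL K (h k) (up K l1) (up K l2) (up K s2) = 0 := fun k => by
    simp only [triL_up, hL k, map_zero, and_self]
  set A := Λ.map (algebraMap ℂ K) with hA
  have hAd : A.det = algebraMap ℂ K Λ.det := by rw [RingHom.map_det]; rfl
  have hA0 : A.det ≠ 0 := by rw [hAd]; exact (map_ne_zero _).mpr hΛ
  obtain ⟨X, hX'⟩ : ∃ X : Fin 4 → K, ∀ n, X n = y 0 * A 0 n + y 1 * A 1 n + y 2 * A 2 n + A 3 n :=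
    ⟨_, fun n => rfl⟩
  obtain ⟨D0, hD0⟩ := V22.exists_jac_one
  have hJ0 : V22.Jac D0 y ≠ 0 := by
    intro h0
    have := hJ D0
    rw [h0, hD0, zero_mul, mul_one] at this
    exact mul_ne_zero ((map_ne_zero _).mpr hc) hF this.symm
  have hX2 : X 2 ≠ 0 := by
    rw [hX']
    exact V22.affine_ne_zero hJ0 (fun m => Λ m 2) fun h0 =>
      hΛ (det_eq_zero_of_column_eq_zero 2 (congrFun h0))
  set N := of (Nm (al (fun k => triL K (h k)) (up K l1) (up K l2) (up K s1) (up K s2) (up K g2))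
    (be (fun k => triL K (h k)) (up K l1) (up K l2) (up K s1) (up K s2) (up K g1))
    (tau (fun k => triL K (h k)) (up K l1) (up K l2) (up K g1) (up K g2) (up K s1))
    (tau (fun k => triL K (h k)) (up K l1) (up K l2) (up K g1) (up K g2) (up K s2)) X) with hN
  have hNe : (Matrix.of fun i j => y 0 * algebraMap ℂ K (Nm (al (fun k => triL ℂ (h k)) l1 l2 s1 s2 g2)
      (be (fun k => triL ℂ (h k)) l1 l2 s1 s2 g1) (tau (fun k => triL ℂ (h k)) l1 l2 g1 g2 s1)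
      (tau (fun k => triL ℂ (h k)) l1 l2 g1 g2 s2) (Λ 0) i j) +
      y 1 * algebraMap ℂ K (Nm (al (fun k => triL ℂ (h k)) l1 l2 s1 s2 g2)
      (be (fun k => triL ℂ (h k)) l1 l2 s1 s2 g1) (tau (fun k => triL ℂ (h k)) l1 l2 g1 g2 s1)
      (tau (fun k => triL ℂ (h k)) l1 l2 g1 g2 s2) (Λ 1) i j) +
      y 2 * algebraMap ℂ K (Nm (al (fun k => triL ℂ (h k)) l1 l2 s1 s2 g2)
      (be (fun k => triL ℂ (h k)) l1 l2 s1 s2 g1) (tau (fun k => triL ℂ (h k)) l1 l2 g1 g2 s1)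
      (tau (fun k => triL ℂ (h k)) l1 l2 g1 g2 s2) (Λ 2) i j) +
      algebraMap ℂ K (Nm (al (fun k => triL ℂ (h k)) l1 l2 s1 s2 g2)
      (be (fun k => triL ℂ (h k)) l1 l2 s1 s2 g1) (tau (fun k => triL ℂ (h k)) l1 l2 g1 g2 s1)
      (tau (fun k => triL ℂ (h k)) l1 l2 g1 g2 s2) (Λ 3) i j)) = N := by
    ext i j
    fin_cases i <;> simp [hN, Nm, al, be, tau, triL_up, hX', hA] <;> ring
  simp only [hNe] at hF hJ
  obtain ⟨ε, hε0, hε⟩ := det_six (F := K)
  obtain ⟨φ0, φ1, φ2, hφ⟩ := exists_pt hsK h1K h2K hbK hLK X hX2 hF hε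
  rw [← hN] at hφ
  obtain ⟨z1, hz1⟩ : ∃ z : Fin 4 → K, z ᵥ* A = ![φ0, φ1, 0, -(X 0 / X 2)] :=
    ⟨_ ᵥ* A⁻¹, by rw [vecMul_vecMul, nonsing_inv_mul _ (Ne.isUnit hA0), vecMul_one]⟩
  obtain ⟨z2, hz2⟩ : ∃ z : Fin 4 → K, z ᵥ* A = ![φ1, φ2, 0, -(X 1 / X 2)] :=
    ⟨_ ᵥ* A⁻¹, by rw [vecMul_vecMul, nonsing_inv_mul _ (Ne.isUnit hA0), vecMul_one]⟩
  set lam : Fin 4 → Fin 6 → ℂ := fun m => Λ m 0 • l1 + Λ m 1 • l2 + Λ m 2 • s1 + Λ m 3 • s2
    with hlam
  have hup : ∀ m, up K (lam m) =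
      A m 0 • up K l1 + A m 1 • up K l2 + A m 2 • up K s1 + A m 3 • up K s2 := fun m => by
    funext n
    simp only [up, hlam, hA, Pi.add_apply, Pi.smul_apply, smul_eq_mul, map_add, map_mul, map_apply]
  set b : Fin 3 ⊕ Fin 3 → Fin 6 → ℂ := Sum.elim ![lam 3, g1, g2] fun l => lam l.castSucc with hb'
  set x : Fin 3 × Fin 3 → K := fun p =>
    ![y p.2, z1 p.2.castSucc - z1 3 * y p.2, z2 p.2.castSucc - z2 3 * y p.2] p.1 with hx
  have c0 : (0 : Fin 3).castSucc = (0 : Fin 4) := rfl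
  have c1 : (1 : Fin 3).castSucc = (1 : Fin 4) := rfl
  have c2 : (2 : Fin 3).castSucc = (2 : Fin 4) := rfl
  have hcp : ∀ j, chartPoint b x j = up K (b (Sum.inl j)) + x (j, 0) • up K (lam 0) +
      x (j, 1) • up K (lam 1) + x (j, 2) • up K (lam 2) := fun j => by
    funext n
    simp only [chartPoint, up, hb', Sum.elim_inr, Fin.sum_univ_three, c0, c1, c2, Pi.add_apply,
      Pi.smul_apply, smul_eq_mul, add_assoc]
  have p0 : chartPoint b x 0 =
      X 0 • up K l1 + X 1 • up K l2 + X 2 • up K s1 + X 3 • up K s2 := by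
    rw [hcp]
    funext n
    simp only [hb', hx, Sum.elim_inl, cons_val_zero, hup, hX', Pi.add_apply, Pi.smul_apply,
      smul_eq_mul]
    ring
  have p1 : chartPoint b x 1 = up K g1 + (φ0 • up K l1 + φ1 • up K l2 - (X 0 / X 2) • up K s2) -
      z1 3 • chartPoint b x 0 := by
    have e0 := congrFun hz1 0
    have e1 := congrFun hz1 1
    have e2 := congrFun hz1 2
    have e3 := congrFun hz1 3
    simp only [vecMul, dotProduct, Fin.sum_univ_four, cons_val_zero, cons_val_one,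
      cons_val] at e0 e1 e2 e3
    rw [p0, hcp]
    funext n
    simp only [hb', hx, Sum.elim_inl, cons_val_zero, cons_val_one, hup, c0, c1, c2,
      Pi.add_apply, Pi.sub_apply, Pi.smul_apply, smul_eq_mul]
    linear_combination up K l1 n * (e0 + z1 3 * hX' 0) + up K l2 n * (e1 + z1 3 * hX' 1) +
      up K s1 n * (e2 + z1 3 * hX' 2) + up K s2 n * (e3 + z1 3 * hX' 3)
  have p2 : chartPoint b x 2 = up K g2 + (φ1 • up K l1 + φ2 • up K l2 - (X 1 / X 2) • up K s2) -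
      z2 3 • chartPoint b x 0 := by
    have e0 := congrFun hz2 0
    have e1 := congrFun hz2 1
    have e2 := congrFun hz2 2
    have e3 := congrFun hz2 3
    simp only [vecMul, dotProduct, Fin.sum_univ_four, cons_val_zero, cons_val_one,
      cons_val] at e0 e1 e2 e3
    rw [p0, hcp]
    funext n
    simp only [hb', hx, Sum.elim_inl, cons_val_zero, cons_val_one, cons_val, hup, c0, c1, c2,
      Pi.add_apply, Pi.sub_apply, Pi.smul_apply, smul_eq_mul]
    linear_combination up K l1 n * (e0 + z2 3 * hX' 0) + up K l2 n * (e1 + z2 3 * hX' 1) +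
      up K s1 n * (e2 + z2 3 * hX' 2) + up K s2 n * (e3 + z2 3 * hX' 3)
  obtain ⟨q1, q2, q3, q4, q5⟩ := hφ _ _ _ _ _ p0 p1 p2
  have hΓ := det_Gam A y X hX' hX2
  have hjac : jacE σ h b x = ε * A.det ^ 2 * N.det := by
    have e : (fun l => up K (b (Sum.inr l))) = fun l => ∑ m, (of fun l m : Fin 3 =>
        A l.castSucc (![0, 1, 3] m) - A l.castSucc 2 / X 2 * X (![0, 1, 3] m)) l m •
        ![up K l1, up K l2, up K s2] m + (A l.castSucc 2 / X 2) • chartPoint b x 0 := by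
      funext l
      rw [p0]
      funext n
      simp only [hb', Sum.elim_inr, hup, Fin.sum_univ_three, of_apply, cons_val_zero, cons_val_one,
        cons_val, Pi.add_apply, Pi.smul_apply, smul_eq_mul]
      field_simp
      ring
    rw [jacE_eq, e, JM_cov hsK h1K h2K q1 q2, q5, ← neg_sq A.det, ← hΓ]
    ring
  have hε' : (ε : ℂ) ≠ 0 := Int.cast_ne_zero.mpr hε0
  have hεK : (ε : K) ≠ 0 := Int.cast_ne_zero.mpr hε0
  refine ⟨b, ?_, x, ⟨fun i j => ?_, fun k => by rw [tri_eq]; exact q4 k⟩, ?_,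
    by rw [hjac]; exact mul_ne_zero (mul_ne_zero hεK (pow_ne_zero _ hA0)) hF,
    c / (ε * Λ.det ^ 2), div_ne_zero hc (mul_ne_zero hε' (pow_ne_zero _ hΛ)), fun D => ?_⟩
  · rw [Fintype.linearIndependent_iff]
    intro a ha
    set z : Fin 4 → ℂ := ![a (Sum.inr 0), a (Sum.inr 1), a (Sum.inr 2), a (Sum.inl 0)] with hz
    obtain ⟨t0, t1, t2, t3, t4, t5⟩ := hb.ind hs (a := (z ᵥ* Λ) 0) (b := (z ᵥ* Λ) 1)
      (c := (z ᵥ* Λ) 2) (d := (z ᵥ* Λ) 3) (e := a (Sum.inl 1)) (f := a (Sum.inl 2)) (by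
        rw [← ha]
        simp only [Fintype.sum_sum_type, hb', hlam, hz, Sum.elim_inl, Sum.elim_inr,
          Fin.sum_univ_four, Fin.sum_univ_three, cons_val_zero, cons_val_one, cons_val, vecMul,
          dotProduct, c0, c1, c2]
        module)
    have hz0 : z = 0 := eq_zero_of_vecMul_eq_zero hΛ (by
      funext l
      fin_cases l
      exacts [t0, t1, t2, t3])
    rintro (i | i)
    · fin_cases i
      exacts [congrFun hz0 3, t4, t5]
    · fin_cases i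
      exacts [congrFun hz0 0, congrFun hz0 1, congrFun hz0 2]
  · rw [bil_eq]
    have t := (hbK.tab hsK).1
    fin_cases i <;> fin_cases j
    · exact t _
    · exact q1
    · exact q2
    · rw [hsK, neg_eq_zero]; exact q1
    · exact t _
    · exact q3
    · rw [hsK, neg_eq_zero]; exact q2
    · rw [hsK, neg_eq_zero]; exact q3
    · exact t _
  · apply V22.eq_top_of_tt
    intro i
    refine IntermediateField.adjoin_le_iff.mpr ?_ (hgen i)
    rintro _ ⟨j, rfl⟩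
    exact IntermediateField.subset_adjoin _ _ ⟨(0, j), rfl⟩
  · have h3 := hJ D
    have hA0' := hA0
    rw [hAd] at hA0'
    rw [hjac, hAd, map_div₀, map_mul, map_pow, map_intCast]
    change V22.Jac D y * (V22.tt 0 * V22.tt 1 * V22.tt 2) = _ * V22.Jac D V22.tt * _
    rw [h3]
    field_simp

end Pool.Agent.Work.MP_7daf81_ag.X16
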