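import Pool.Agent.Work.MP_7daf81_ag.V22.L4
import Pool.Agent.Work.MP_7daf81_ag.V22.N3
import Pool.Agent.Work.MP_7daf81_ag.V22.Step3

/-! Auxiliary numerical lemmas for the cubic surface of the double projection. -/

namespace Pool.Agent.Work.MP_7daf81_ag.X16

open Matrix Pool.Agent.Work.MP_7daf81_ag.V22

theorem toric_lin (F : K → K → K → K) (κ c0 c1 c2 c3 d0 d1 d2 : ℂ) (hκ : κ ≠ 0)
    (hF : ∀ a b t : K, F a b t = algebraMap ℂ K κ * a * b * t +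
      (algebraMap ℂ K c0 * b * b * b + algebraMap ℂ K c1 * b * b * t +
        algebraMap ℂ K c2 * b * t * t + algebraMap ℂ K c3 * t * t * t +
        algebraMap ℂ K d0 * b * b + algebraMap ℂ K d1 * b * t + algebraMap ℂ K d2 * t * t)) :
    Toric F := by
  have hκ' : algebraMap ℂ K κ ≠ 0 := (map_ne_zero _).mpr hκ
  have h1 := tt_ne_zero 1
  have h2 := tt_ne_zero 2
  set G : K := algebraMap ℂ K c0 * tt 1 * tt 1 * tt 1 + algebraMap ℂ K c1 * tt 1 * tt 1 * tt 2 +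
    algebraMap ℂ K c2 * tt 1 * tt 2 * tt 2 + algebraMap ℂ K c3 * tt 2 * tt 2 * tt 2 +
    algebraMap ℂ K d0 * tt 1 * tt 1 + algebraMap ℂ K d1 * tt 1 * tt 2 +
    algebraMap ℂ K d2 * tt 2 * tt 2 with hG
  obtain ⟨a, ha⟩ : ∃ a, tt 0 = algebraMap ℂ K κ * a * tt 1 * tt 2 + G :=
    ⟨(tt 0 - G) / (algebraMap ℂ K κ * tt 1 * tt 2), by field_simp; ring⟩
  apply TD.toric (a1 := a) (a2 := tt 1) (τ := tt 2)
  rw [hF, ← hG, ← ha]
  refine ⟨κ⁻¹, inv_ne_zero hκ, tt_ne_zero 0, fun L g0 g1 g2 i => ?_, fun D => ?_⟩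
  · have hc := L.algebraMap_mem
    fin_cases i
    · change tt 0 ∈ L
      rw [ha, hG]
      repeat' first | exact g0 | exact g1 | exact g2 | exact hc _ | apply add_mem | apply mul_mem
    · exact g1
    · exact g2
  · obtain ⟨p, q, hD⟩ : ∃ p q : K, ∀ E : Derivation ℂ K K,
        E (tt 0) = algebraMap ℂ K κ * tt 1 * tt 2 * E a + p * E (tt 1) + q * E (tt 2) := by
      refine ⟨algebraMap ℂ K κ * a * tt 2 + 3 * algebraMap ℂ K c0 * tt 1 * tt 1 +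
        2 * algebraMap ℂ K c1 * tt 1 * tt 2 + algebraMap ℂ K c2 * tt 2 * tt 2 +
        2 * algebraMap ℂ K d0 * tt 1 + algebraMap ℂ K d1 * tt 2,
        algebraMap ℂ K κ * a * tt 1 + algebraMap ℂ K c1 * tt 1 * tt 1 +
        2 * algebraMap ℂ K c2 * tt 1 * tt 2 + 3 * algebraMap ℂ K c3 * tt 2 * tt 2 +
        algebraMap ℂ K d1 * tt 1 + 2 * algebraMap ℂ K d2 * tt 2, fun E => ?_⟩
      have := congrArg E ha
      rw [this, hG]
      simp only [map_add, Derivation.leibniz, Derivation.map_algebraMap, smul_eq_mul]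
      ring
    simp only [Jac, det_fin_three, of_apply, cons_val_zero, cons_val_one, cons_val, hD, map_inv₀]
    field_simp
    ring

theorem toric_of_det' (P Q R W : Fin 3 → Fin 3 → ℂ) (h1 : T3 (P 0) (P 1) (P 2) = 0)
    (h2 : m2 P Q = 0) (h3 : m2 P R = 0) (h4 : m2 P W = 0) (h5 : m2 W P = 0) (h6 : m2 W Q = 0)
    (h7 : m2 W R = 0) (h8 : T3 (W 0) (W 1) (W 2) = 0) (h9 : m3 P Q W = 0) (h10 : m3 P R W = 0)
    (h11 : m2 Q P = 0) (h12 : m2 R P = 0) (hd : m3 P Q R ≠ 0) :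
    Toric fun a1 a2 t => (Matrix.of fun i j => a1 * algebraMap ℂ K (P i j) +
      a2 * algebraMap ℂ K (Q i j) + t * algebraMap ℂ K (R i j) + algebraMap ℂ K (W i j)).det := by
  refine toric_lin _ (m3 P Q R) (T3 (Q 0) (Q 1) (Q 2)) (m2 Q R) (m2 R Q) (T3 (R 0) (R 1) (R 2))
    (m2 Q W) (m3 Q R W) (m2 R W) hd fun a b t => ?_
  have g1 := congrArg (algebraMap ℂ K) h1
  have g2 := congrArg (algebraMap ℂ K) h2
  have g3 := congrArg (algebraMap ℂ K) h3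
  have g4 := congrArg (algebraMap ℂ K) h4
  have g5 := congrArg (algebraMap ℂ K) h5
  have g6 := congrArg (algebraMap ℂ K) h6
  have g7 := congrArg (algebraMap ℂ K) h7
  have g8 := congrArg (algebraMap ℂ K) h8
  have g9 := congrArg (algebraMap ℂ K) h9
  have g10 := congrArg (algebraMap ℂ K) h10
  have g11 := congrArg (algebraMap ℂ K) h11
  have g12 := congrArg (algebraMap ℂ K) h12
  simp only [T3, m2, m3, map_add, map_sub, map_mul, map_zero, det_fin_three,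
    of_apply] at g1 g2 g3 g4 g5 g6 g7 g8 g9 g10 g11 g12 ⊢
  linear_combination a ^ 3 * g1 + a ^ 2 * b * g2 + a ^ 2 * t * g3 + a ^ 2 * g4 + a * g5 + b * g6 +
    t * g7 + g8 + a * b * g9 + a * t * g10 + a * b ^ 2 * g11 + a * t ^ 2 * g12

theorem algC (p0 p1 p2 q0 q1 q2 : ℂ)
    (h : ∀ s r : ℂ, (s * p1 + r * q1) ^ 2 - 4 * (s * p0 + r * q0) * (s * p2 + r * q2) = 0) :
    ∃ s r : ℂ, ¬(s = 0 ∧ r = 0) ∧ s * p0 + r * q0 = 0 ∧ s * p1 + r * q1 = 0 ∧
      s * p2 + r * q2 = 0 := by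
  have hp : p1 ^ 2 - 4 * p0 * p2 = 0 := by linear_combination h 1 0
  have hq : q1 ^ 2 - 4 * q0 * q2 = 0 := by linear_combination h 0 1
  have hm : p1 * q1 - 2 * p0 * q2 - 2 * p2 * q0 = 0 := by linear_combination (h 1 1 - hp - hq) / 2
  have e1 : p0 * q1 - q0 * p1 = 0 := pow_eq_zero_iff (n := 2) (by norm_num) |>.mp (by
    linear_combination p0 ^ 2 * hq + q0 ^ 2 * hp - 2 * p0 * q0 * hm)
  have e2 : p2 * q1 - q2 * p1 = 0 := pow_eq_zero_iff (n := 2) (by norm_num) |>.mp (by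
    linear_combination p2 ^ 2 * hq + q2 ^ 2 * hp - 2 * p2 * q2 * hm)
  have e3 : p1 * q1 - 4 * p0 * q2 = 0 := pow_eq_zero_iff (n := 2) (by norm_num) |>.mp (by
    linear_combination q1 ^ 2 * hp + 4 * p0 * p2 * hq - 8 * p0 * q2 * hm)
  have e4 : p0 * q2 - q0 * p2 = 0 := by linear_combination (hm - e3) / 2
  by_cases h0 : p0 = 0
  · by_cases h1 : p1 = 0
    · by_cases h2 : p2 = 0
      · exact ⟨1, 0, by simp, by simp [h0], by simp [h1], by simp [h2]⟩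
      · exact ⟨q2, -p2, fun hh => h2 (neg_eq_zero.mp hh.2), by linear_combination e4,
          by linear_combination -e2, by ring⟩
    · exact ⟨q1, -p1, fun hh => h1 (neg_eq_zero.mp hh.2), by linear_combination e1, by ring,
        by linear_combination e2⟩
  · exact ⟨q0, -p0, fun hh => h0 (neg_eq_zero.mp hh.2), by ring, by linear_combination -e1,
      by linear_combination -e4⟩

theorem roots_quad (A0 A1 A2 : ℂ) (h : A1 ^ 2 - 4 * A0 * A2 ≠ 0) : ∃ x1 y1 x2 y2 : ℂ,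
    x1 * y2 - y1 * x2 ≠ 0 ∧ A0 * x1 ^ 2 + A1 * x1 * y1 + A2 * y1 ^ 2 = 0 ∧
    A0 * x2 ^ 2 + A1 * x2 * y2 + A2 * y2 ^ 2 = 0 ∧
    2 * A0 * x1 * x2 + A1 * (x1 * y2 + y1 * x2) + 2 * A2 * y1 * y2 ≠ 0 := by
  by_cases h0 : A0 = 0
  · have h1 : A1 ≠ 0 := fun h1 => h (by rw [h0, h1]; ring)
    refine ⟨1, 0, A2, -A1, by simpa using h1, by simp [h0], by rw [h0]; ring, fun hh => ?_⟩
    exact h (by rw [h0] at hh ⊢; linear_combination -hh)
  · obtain ⟨z, hz⟩ := IsAlgClosed.exists_pow_nat_eq (A1 ^ 2 - 4 * A0 * A2) (n := 2) (by norm_num)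
    have hz0 : z ≠ 0 := fun h0 => h (by rw [← hz, h0]; ring)
    refine ⟨z - A1, 2 * A0, -z - A1, 2 * A0, fun hh => mul_ne_zero h0 hz0 (by linear_combination hh / 4),
      by linear_combination A0 * hz, by linear_combination A0 * hz, fun hh => mul_ne_zero h0 h ?_⟩
    linear_combination -hh / 4 - A0 / 2 * hz

/-- No decomposable tensor is in the kernel. -/
def NoDec (P1 P2 Q1 Q2 : Fin 3 → ℂ) : Prop :=
  ∀ v1 v2 m1 m2 : ℂ, ¬(v1 = 0 ∧ v2 = 0) →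
    m1 • (v1 • P1 + v2 • P2) + m2 • (v1 • Q1 + v2 • Q2) = 0 → m1 = 0 ∧ m2 = 0

theorem NoDec.sing {P1 P2 Q1 Q2 : Fin 3 → ℂ} (h : NoDec P1 P2 Q1 Q2) {a b c d : ℂ}
    (h0 : a • P1 + b • Q1 + c • P2 + d • Q2 = 0) (hd : a * d - b * c = 0) :
    a = 0 ∧ b = 0 ∧ c = 0 ∧ d = 0 := by
  by_cases hab : a = 0 ∧ b = 0
  · obtain ⟨x, y⟩ := h 0 1 c d (by simp) (by rw [← h0, hab.1, hab.2]; module)
    exact ⟨hab.1, hab.2, x, y⟩
  · obtain ⟨l, rfl, rfl⟩ := par hab (s := c) (t := d) (by linear_combination hd)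
    exact absurd (h 1 l a b (by simp) (by rw [← h0]; module)) hab

theorem NoDec.core {P1 P2 Q1 Q2 c : Fin 3 → ℂ} (h : NoDec P1 P2 Q1 Q2) (h0 : P1 + Q2 = 0)
    (hc : c ≠ 0) (e1 : T3 c P1 Q1 = 0) (e2 : T3 c P1 Q2 + T3 c P2 Q1 = 0) (e3 : T3 c P2 Q2 = 0) :
    False := by
  obtain rfl : Q2 = -P1 := (neg_eq_of_add_eq_zero_right h0).symm
  simp only [T3, Pi.neg_apply] at e1 e2 e3
  have hd : (Matrix.of ![P1, Q1, P2]).det = 0 := by
    by_contra hd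
    apply hc
    funext i
    apply mul_left_cancel₀ hd
    simp only [det_fin_three, of_apply, cons_val_zero, cons_val_one, cons_val, Pi.zero_apply]
    fin_cases i
    · change _ * c 0 = _
      linear_combination P2 0 * e1 - P1 0 * e2 - Q1 0 * e3
    · change _ * c 1 = _
      linear_combination P2 1 * e1 - P1 1 * e2 - Q1 1 * e3
    · change _ * c 2 = _
      linear_combination P2 2 * e1 - P1 2 * e2 - Q1 2 * e3
  obtain ⟨k, hk0, hk⟩ := exists_vecMul_eq_zero_iff.mpr hd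
  have hk' : k 0 • P1 + k 1 • Q1 + k 2 • P2 = 0 := by
    funext i
    simpa [vecMul, dotProduct, Fin.sum_univ_three] using congrFun hk i
  obtain ⟨z, hz⟩ := IsAlgClosed.exists_pow_nat_eq (k 0 ^ 2 + 4 * k 1 * k 2) (n := 2) (by norm_num)
  obtain ⟨a, b, c', d⟩ := h.sing (a := (k 0 - z) / 2) (b := k 1) (c := k 2) (d := -((k 0 + z) / 2))
    (by rw [← hk']; module) (by linear_combination hz / 4)
  apply hk0
  funext i
  fin_cases i
  · change k 0 = 0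
    linear_combination a - d
  · exact b
  · exact c'

theorem NoDec.false {P1 P2 Q1 Q2 c : Fin 3 → ℂ} (h : NoDec P1 P2 Q1 Q2)
    (hc : c ≠ 0) (e1 : T3 c P1 Q1 = 0) (e2 : T3 c P1 Q2 + T3 c P2 Q1 = 0) (e3 : T3 c P2 Q2 = 0) :
    False := by
  obtain ⟨k, hk, hk0⟩ := Fintype.not_linearIndependent_iff.mp
    (fun hi : LinearIndependent ℂ ![P1, Q1, P2, Q2] => by simpa using hi.fintype_card_le_finrank)
  have hk' : k 0 • P1 + k 1 • Q1 + k 2 • P2 + k 3 • Q2 = 0 := by simpa [Fin.sum_univ_four] using hk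
  have hd : k 0 * k 3 - k 1 * k 2 ≠ 0 := fun hd => by
    obtain ⟨a, b, c', d⟩ := h.sing hk' hd
    obtain ⟨i, hi⟩ := hk0
    fin_cases i
    exacts [hi a, hi b, hi c', hi d]
  refine NoDec.core (P1 := k 0 • P1 + k 1 • Q1) (P2 := k 0 • P2 + k 1 • Q2)
    (Q1 := k 2 • P1 + k 3 • Q1) (Q2 := k 2 • P2 + k 3 • Q2) (fun v1 v2 m1 m2 hv h0 => ?_)
    (by rw [← hk']; module) hc ?_ ?_ ?_
  · obtain ⟨x, y⟩ := h v1 v2 (m1 * k 0 + m2 * k 2) (m1 * k 1 + m2 * k 3) hv (by rw [← h0]; module)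
    exact ⟨mul_left_cancel₀ hd (by linear_combination k 3 * x - k 2 * y),
      mul_left_cancel₀ hd (by linear_combination k 0 * y - k 1 * x)⟩
  all_goals simp only [T3, Pi.add_apply, Pi.smul_apply, smul_eq_mul] at e1 e2 e3 ⊢
  · linear_combination (k 0 * k 3 - k 1 * k 2) * e1
  · linear_combination (k 0 * k 3 - k 1 * k 2) * e2
  · linear_combination (k 0 * k 3 - k 1 * k 2) * e3

theorem exists_perp (n : Fin 3 → ℂ) : ∃ μ μ' : Fin 3 → ℂ,
    μ 1 * μ' 2 - μ 2 * μ' 1 = n 0 ∧ μ 2 * μ' 0 - μ 0 * μ' 2 = n 1 ∧ μ 0 * μ' 1 - μ 1 * μ' 0 = n 2 := by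
  by_cases h0 : n 0 = 0
  · by_cases h1 : n 1 = 0
    · exact ⟨![1, 0, 0], ![0, n 2, 0], by simp [h0], by simp [h1], by simp⟩
    · refine ⟨![0, -n 2 / n 1, 1], ![n 1, 0, 0], by simp [h0], by simp, ?_⟩
      simp
      field_simp
  · refine ⟨![-n 1 / n 0, 1, 0], ![-n 2, 0, n 0], by simp, ?_, by simp⟩
    simp
    field_simp

theorem exists_cubic_root (P Q : Matrix (Fin 3) (Fin 3) ℂ) :
    ∃ v1 v2 : ℂ, ¬(v1 = 0 ∧ v2 = 0) ∧ (v1 • P + v2 • Q).det = 0 := by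
  obtain ⟨p, hp⟩ := det_poly P Q
  obtain ⟨q, hq⟩ := det_poly Q P
  exact exists_root_homog (fun v1 v2 => (v1 • P + v2 • Q).det) p q
    (fun s => by rw [one_smul, hp]) (fun x => by rw [one_smul, add_comm, hq]) (fun x hx => by
      have := det_smul ((1 : ℂ) • P + x⁻¹ • Q) x
      rw [Fintype.card_fin] at this
      rw [← this, smul_add, smul_smul, smul_smul, mul_one, mul_inv_cancel₀ hx])

end Pool.Agent.Work.MP_7daf81_ag.X16
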